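import Mathlib

/-! # Paucity in Vinogradov's system for `s ≤ (1 + 1/300) k` : definitions and statements of the steps -/

set_option autoImplicit false

namespace Pool.Agent.W89.VP

open Finset Polynomial

/-- Pairs of `s`-tuples in `[1,N]` with equal `j`-th power sums for `j = 1..k` (the set counted in S18749). -/
def VS (s k N : ℕ) : Finset ((Fin s → ℕ) × (Fin s → ℕ)) :=
  ((Fintype.piFinset fun _ : Fin s => Finset.Icc 1 N) ×ˢ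
      (Fintype.piFinset fun _ : Fin s => Finset.Icc 1 N)).filter
    (fun p : (Fin s → ℕ) × (Fin s → ℕ) =>
      ∀ j : Fin k, ∑ i : Fin s, p.1 i ^ (j.val + 1) = ∑ i : Fin s, p.2 i ^ (j.val + 1))

open scoped Classical in
/-- The non-diagonal solutions. -/
noncomputable def VN (s k N : ℕ) : Finset ((Fin s → ℕ) × (Fin s → ℕ)) :=
  (VS s k N).filter (fun p => ¬ ∃ σ : Equiv.Perm (Fin s), p.2 = p.1 ∘ σ)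

/-- The solutions in which no `x_i` equals a `y_j`. -/
def VD (s k N : ℕ) : Finset ((Fin s → ℕ) × (Fin s → ℕ)) :=
  (VS s k N).filter (fun p => ∀ i j, p.1 i ≠ p.2 j)

/-- `y` takes distinct values in `[1,N]`. -/
def Good (n N : ℕ) (y : Fin n → ℕ) : Prop :=
  Function.Injective y ∧ ∀ j, 1 ≤ y j ∧ y j ≤ N

/-- `|u - v|` as a natural number. -/
def ds (u v : ℕ) : ℕ := ((u : ℤ) - (v : ℤ)).natAbs

/-- The Vandermonde product `∏_{i<j} |y_i - y_j|`. -/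
def Vd {n : ℕ} (y : Fin n → ℕ) : ℕ :=
  ∏ i : Fin n, ∏ j ∈ Finset.univ.filter (fun j : Fin n => i < j), ds (y i) (y j)

/-- The largest divisor of `u` coprime to `V` (for `u ≥ 1`). -/
def vf (V u : ℕ) : ℕ := ∏ p ∈ u.primeFactors.filter (fun p => ¬ p ∣ V), p ^ (u.factorization p)

/-- `x` avoids all `y_j`, and the values at the `y_j` of `∏ (X - x_i)` are those of an integer polynomial of
degree `< d`. -/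
def ZP (d n s : ℕ) (y : Fin n → ℕ) (x : Fin s → ℕ) : Prop :=
  (∀ i j, x i ≠ y j) ∧
    ∃ R : ℤ[X], R.degree < (d : WithBot ℕ) ∧
      ∀ j, R.eval (y j : ℤ) = ∏ i : Fin s, ((y j : ℤ) - (x i : ℤ))

open scoped Classical in
/-- The tuples `x ∈ [1,N]^s` with `ZP`. -/
noncomputable def ZS (d n s N : ℕ) (y : Fin n → ℕ) : Finset (Fin s → ℕ) :=
  (Fintype.piFinset fun _ : Fin s => Finset.Icc 1 N).filter (fun x => ZP d n s y x)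

/-- The threshold in the uniqueness lemma. -/
noncomputable def Tb (n δ N : ℕ) (F : Fin n → ℕ) : ℝ :=
  ((2 * δ).factorial : ℝ) * (N : ℝ) ^ (2 * δ * (δ - 1)) * 4 ^ n *
    (∏ j, (F j : ℝ)) ^ ((2 * (δ : ℝ)) / (n : ℝ))

/-- The value vectors that are determined (up to few choices) by divisors of the `α_j`. -/
def UU (d n s N : ℕ) (y α F : Fin n → ℕ) : Prop :=
  ∃ π : ℤ[X], Irreducible π ∧ 1 ≤ π.natDegree ∧ π.natDegree < d ∧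
    (∀ j, F j = (π.eval (y j : ℤ)).natAbs) ∧ (∀ j, 1 ≤ F j ∧ F j ≤ N ^ s) ∧
    ∃ p : Fin n → ℕ, (∀ j, p j ∣ α j) ∧ (∀ j, Nat.Coprime (p j) (Vd y)) ∧ (∀ j, p j ∣ F j) ∧
      Tb n π.natDegree N F < ∏ j, (p j : ℝ)

/-! ## Statements of the steps -/

/-- VP-REF -/
def REFStm : Prop := ∀ (ι κ : Type) [Fintype ι] [Fintype κ] (U : ι → ℕ) (W : κ → ℕ),
  (∀ i, 0 < U i) → (∀ l, 0 < W l) → ∏ i, U i = ∏ l, W l →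
    ∃ g : ι → κ → ℕ, (∀ i, U i = ∏ l, g i l) ∧ (∀ l, W l = ∏ i, g i l)

/-- VP-DIV -/
def DIVStm : Prop := ∀ ε : ℝ, 0 < ε → ∃ C : ℝ, 0 < C ∧ ∀ n : ℕ, 1 ≤ n →
  (n.divisors.card : ℝ) ≤ C * (n : ℝ) ^ ε

/-- VP-VF : basic facts on `vf` -/
def VFStm : Prop :=
  (∀ V u : ℕ, 1 ≤ u → vf V u ∣ u) ∧ (∀ V u : ℕ, 1 ≤ u → 1 ≤ vf V u) ∧
  (∀ V u : ℕ, 1 ≤ V → 1 ≤ u → Nat.Coprime (vf V u) V) ∧
  (∀ V u v : ℕ, 1 ≤ u → 1 ≤ v → vf V (u * v) = vf V u * vf V v) ∧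
  (∀ V u p : ℕ, 1 ≤ u → p.Prime → p ∣ u / vf V u → p ∣ V) ∧
  (∀ V (ι : Type) [Fintype ι] (u : ι → ℕ), (∀ i, 1 ≤ u i) → vf V (∏ i, u i) = ∏ i, vf V (u i))

/-- VP-VINF : few integers up to `N` are composed of primes dividing `V` -/
def VINFStm : Prop := ∀ (K : ℕ) (ε : ℝ), 0 < ε → ∃ C : ℝ, 0 < C ∧ ∀ N V : ℕ, 1 ≤ N → 1 ≤ V →
  V ≤ N ^ K →
    (((Finset.Icc 1 N).filter (fun u => ∀ p ∈ u.primeFactors, p ∣ V)).card : ℝ) ≤ C * (N : ℝ) ^ ε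

open scoped Classical in
/-- VP-EXC : the exceptional tuples -/
def EXCStm : Prop := ∀ s n : ℕ, ∃ C : ℝ, 0 < C ∧ ∀ N : ℕ, 1 ≤ N → ∀ y : Fin n → ℕ, Good n N y →
  (((Fintype.piFinset fun _ : Fin s => Finset.Icc 1 N).filter (fun x : Fin s → ℕ =>
      (∀ i j, x i ≠ y j) ∧ ∃ j, ((vf (Vd y) (∏ i, ds (y j) (x i)) : ℕ) : ℝ) < (N : ℝ) ^ ((7 / 8 : ℝ) * s))).card : ℝ)
    ≤ C * (N : ℝ) ^ ((7 / 8 : ℝ) * s + 1)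

/-- VP-UNIQ : uniqueness of the value vector of an irreducible polynomial given large divisors of its values -/
def UNIQStm : Prop := ∀ n δ N : ℕ, 1 ≤ δ → 2 * δ ≤ n → ∀ y : Fin n → ℕ, Good n N y →
  ∀ π π' : ℤ[X], Irreducible π → Irreducible π' → π.natDegree = δ → π'.natDegree = δ →
  ∀ F F' : Fin n → ℕ, (∀ j, F j = (π.eval (y j : ℤ)).natAbs) → (∀ j, F' j = (π'.eval (y j : ℤ)).natAbs) →
  (∀ j, 1 ≤ F j) → (∀ j, 1 ≤ F' j) → (∀ j, F' j ≤ 2 * F j) →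
  ∀ p : Fin n → ℕ, (∀ j, Nat.Coprime (p j) (Vd y)) → (∀ j, p j ∣ F j) → (∀ j, p j ∣ F' j) →
  Tb n δ N F < ∏ j, (p j : ℝ) → F = F'

/-- VP-UNIQA : the resultant of two non-associated irreducible polynomials of equal degree `δ`, seen through
any `2δ` points -/
def UNIQAStm : Prop := ∀ δ : ℕ, 1 ≤ δ → ∀ π π' : ℤ[X], Irreducible π → Irreducible π' →
  π.natDegree = δ → π'.natDegree = δ → ¬ Associated π π' →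
  ∃ ρ : ℤ, ρ ≠ 0 ∧ ∀ z : Fin (2 * δ) → ℤ, ∃ E : Matrix (Fin (2 * δ)) (Fin (2 * δ)) ℤ,
    E.det = ρ * (Matrix.vandermonde z).det ∧
    ∀ i j, ∃ b : ℕ, b < δ ∧ (E i j = z i ^ b * π.eval (z i) ∨ E i j = z i ^ b * π'.eval (z i))

/-- VP-CARDU -/
def CARDUStm : Prop := ∀ d n s : ℕ, 2 * d ≤ n → ∀ ε : ℝ, 0 < ε → ∃ C : ℝ, 0 < C ∧ ∀ N : ℕ, 1 ≤ N →
  ∀ y : Fin n → ℕ, Good n N y → ∀ α : Fin n → ℕ, (∀ j, 1 ≤ α j ∧ α j ≤ N ^ s) →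
    ∃ 𝓕 : Finset (Fin n → ℕ), (∀ F, UU d n s N y α F → F ∈ 𝓕) ∧ (𝓕.card : ℝ) ≤ C * (N : ℝ) ^ ε

/-- VP-FAC -/
def FACStm : Prop := ∀ R : ℤ[X], R ≠ 0 → ∃ (c : ℤ) (w : ℕ) (π : Fin w → ℤ[X]), c ≠ 0 ∧
  (∀ l, Irreducible (π l) ∧ 1 ≤ (π l).natDegree) ∧ R = C c * ∏ l, π l ∧
  ∑ l, (π l).natDegree = R.natDegree

/-- VP-AVG -/
def AVGStm : Prop :=
  (∀ (s : ℕ) (w : Fin s → ℝ), (∀ i, 0 ≤ w i ∧ w i ≤ 1) → 8 ≤ ∑ i, w i →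
    (2 : ℝ) ^ s * (∑ i, w i) / 4 ≤ ∑ A : Finset (Fin s),
      if (∑ i, w i) / 4 ≤ ∑ i ∈ A, w i then ∑ i ∈ Aᶜ, w i else 0) ∧
  (∀ (s : ℕ) (w : Fin s → ℝ), ∑ A : Finset (Fin s), ∑ i ∈ Aᶜ, w i = (2 : ℝ) ^ s / 2 * ∑ i, w i) ∧
  (∀ (s : ℕ) (γ : Fin s → Fin s → ℝ), (∀ i, γ i i = 0) →
    ∑ A : Finset (Fin s), ∑ i ∈ Aᶜ, ∑ i' ∈ Aᶜ, γ i i' = (2 : ℝ) ^ s / 4 * ∑ i, ∑ i', γ i i')

/-- VP-CNT -/
def CNTStm : Prop := ∀ (s : ℕ) (ε : ℝ), 0 < ε → ∃ C : ℝ, 0 < C ∧ ∀ N : ℕ, 1 ≤ N →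
  ∀ (A : Finset (Fin s)) (z : Fin s → ℕ) (y φ : ℕ), 1 ≤ y → y ≤ N → 1 ≤ φ → φ ≤ N ^ s →
    (((Fintype.piFinset fun _ : Fin s => Finset.Icc 1 N).filter (fun x : Fin s → ℕ =>
      (∀ i ∈ A, x i = z i) ∧ (∀ i ∈ Aᶜ, x i ≠ y) ∧ φ ∣ ∏ i ∈ Aᶜ, ds y (x i))).card : ℝ)
      ≤ C * (N : ℝ) ^ ε * (N : ℝ) ^ (Aᶜ.card) / (φ : ℝ)

/-- The structure found for a non-exceptional tuple. -/
def STRc (d s N : ℕ) (y : Fin (32 * d) → ℕ) (x : Fin s → ℕ) : Prop :=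
  ∃ A : Finset (Fin s), ∃ w : ℕ, w ≤ d ∧ ∃ F : Fin w → Fin (32 * d) → ℕ,
    (∀ l, UU d (32 * d) s N y (fun j => ∏ i ∈ A, ds (y j) (x i)) (F l)) ∧
    ∃ (K v φ : ℕ) (j j₁ j₂ : Fin (32 * d)),
      K ∣ (∏ i ∈ A, ds (y j₁) (x i)) * (∏ i ∈ A, ds (y j₂) (x i)) ∧
      1 ≤ v ∧ v ≤ N ^ s ∧ φ ∣ K * v * ∏ l, F l j ∧ φ ∣ ∏ i ∈ Aᶜ, ds (y j) (x i) ∧
      (v : ℝ) * (N : ℝ) ^ ((s : ℝ) / 8) ≤ (φ : ℝ)

/-- VP-STR -/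
def STRStm : Prop := ∀ d s : ℕ, 1 ≤ d → 40 * d ≤ s → ∃ N0 : ℕ, ∀ N : ℕ, N0 ≤ N →
  ∀ y : Fin (32 * d) → ℕ, Good (32 * d) N y → ∀ x ∈ ZS d (32 * d) s N y,
    (∀ j, (N : ℝ) ^ ((7 / 8 : ℝ) * s) ≤ ((vf (Vd y) (∏ i, ds (y j) (x i)) : ℕ) : ℝ)) →
      STRc d s N y x

/-- VP-FIN : the main counting lemma -/
def MAINStm : Prop := ∀ d s : ℕ, 1 ≤ d → 40 * d ≤ s → ∃ C : ℝ, 0 < C ∧ ∀ N : ℕ, 1 ≤ N →
  ∀ y : Fin (32 * d) → ℕ, Good (32 * d) N y →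
    ((ZS d (32 * d) s N y).card : ℝ) ≤ C * (N : ℝ) ^ ((s : ℝ) - (s : ℝ) / 8 + 1)

/-- VP-NEWT : equal power sums force a difference of low degree -/
def NEWTStm : Prop := ∀ (s k : ℕ) (x y : Fin s → ℕ),
  (∀ j : Fin k, ∑ i : Fin s, x i ^ (j.val + 1) = ∑ i : Fin s, y i ^ (j.val + 1)) →
    ((∏ i, ((X : ℤ[X]) - C (x i : ℤ))) - ∏ i, ((X : ℤ[X]) - C (y i : ℤ))).degree
      < ((s - k : ℕ) : WithBot ℕ)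

/-- VP-DISJ -/
def DISJStm : Prop := ∀ k t : ℕ, k < t → 300 * (t - k) ≤ k → ∃ C : ℝ, 0 < C ∧ ∀ N : ℕ, 1 ≤ N →
  ((VD t k N).card : ℝ) ≤ C * (N : ℝ) ^ ((t : ℝ) - (k : ℝ) / 100)

/-- VP-RED -/
def REDStm : Prop := ∀ s k : ℕ, ∃ C : ℝ, 0 < C ∧ ∀ N : ℕ, 1 ≤ N →
  ((VN s k N).card : ℝ) ≤ C * ∑ t ∈ Finset.Ioc k s, (N : ℝ) ^ (s - t) * ((VD t k N).card : ℝ)

open scoped Classical in
/-- VP-DIAG -/
def DIAGStm : Prop := ∀ s : ℕ, 1 ≤ s → ∃ C : ℝ, 0 < C ∧ ∀ N : ℕ, 1 ≤ N →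
  |((((Fintype.piFinset fun _ : Fin s => Finset.Icc 1 N) ×ˢ
      (Fintype.piFinset fun _ : Fin s => Finset.Icc 1 N)).filter
    (fun p : (Fin s → ℕ) × (Fin s → ℕ) => ∃ σ : Equiv.Perm (Fin s), p.2 = p.1 ∘ σ)).card : ℝ)
      - (s.factorial : ℝ) * (N : ℝ) ^ s| ≤ C * (N : ℝ) ^ (s - 1)

end Pool.Agent.W89.VP
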