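import Pool.Agent.W89.VP.Defs

set_option autoImplicit false

namespace Pool.Agent.W89.VP.FinP

open Finset Polynomial Pool.Agent.W89.VP

/-- ds is bounded by N and positive off the diagonal. -/
lemma ds_le {u v N : ℕ} (hu : 1 ≤ u) (hu' : u ≤ N) (hv : 1 ≤ v) (hv' : v ≤ N) : ds u v ≤ N := by
  unfold ds; omega

lemma ds_pos {u v : ℕ} (h : v ≠ u) : 1 ≤ ds u v := by
  unfold ds; omega

/-- bound of a union. -/
lemma card_biUnion_le' {α β : Type*} [DecidableEq β] (s : Finset α) (t : α → Finset β) (B : ℝ)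
    (h : ∀ a ∈ s, ((t a).card : ℝ) ≤ B) : ((s.biUnion t).card : ℝ) ≤ s.card * B := by
  calc ((s.biUnion t).card : ℝ) ≤ ((∑ a ∈ s, (t a).card : ℕ) : ℝ) := by exact_mod_cast Finset.card_biUnion_le
    _ = ∑ a ∈ s, ((t a).card : ℝ) := by push_cast; rfl
    _ ≤ ∑ a ∈ s, B := Finset.sum_le_sum h
    _ = s.card * B := by simp

lemma card_le_of_cover {α β : Type*} (S : Finset β) (I : Finset α) (P : α → β → Prop) (B : ℝ)
    (hcov : ∀ x ∈ S, ∃ a ∈ I, P a x)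
    (hB : ∀ a ∈ I, ∀ T : Finset β, T ⊆ S → (∀ x ∈ T, P a x) → (T.card : ℝ) ≤ B) :
    (S.card : ℝ) ≤ I.card * B := by
  classical
  have h1 : S ⊆ I.biUnion (fun a => S.filter (fun x => P a x)) := by
    intro x hx
    obtain ⟨a, ha, hP⟩ := hcov x hx
    rw [Finset.mem_biUnion]
    exact ⟨a, ha, by simp [hx, hP]⟩
  calc (S.card : ℝ) ≤ ((I.biUnion (fun a => S.filter (fun x => P a x))).card : ℝ) := by
        exact_mod_cast Finset.card_le_card h1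
    _ ≤ I.card * B := by
        apply card_biUnion_le'
        intro a ha
        apply hB a ha
        · exact Finset.filter_subset _ _
        · intro x hx; exact (Finset.mem_filter.1 hx).2

/-- cover with varying bounds -/
lemma card_le_of_cover_sum {α β : Type*} (S : Finset β) (I : Finset α) (P : α → β → Prop) (B : α → ℝ)
    (hcov : ∀ x ∈ S, ∃ a ∈ I, P a x)
    (hB : ∀ a ∈ I, ∀ T : Finset β, T ⊆ S → (∀ x ∈ T, P a x) → (T.card : ℝ) ≤ B a) :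
    (S.card : ℝ) ≤ ∑ a ∈ I, B a := by
  classical
  have h1 : S ⊆ I.biUnion (fun a => S.filter (fun x => P a x)) := by
    intro x hx
    obtain ⟨a, ha, hP⟩ := hcov x hx
    rw [Finset.mem_biUnion]
    exact ⟨a, ha, by simp [hx, hP]⟩
  calc (S.card : ℝ) ≤ ((I.biUnion (fun a => S.filter (fun x => P a x))).card : ℝ) := by
        exact_mod_cast Finset.card_le_card h1
    _ ≤ ((∑ a ∈ I, (S.filter (fun x => P a x)).card : ℕ) : ℝ) := by exact_mod_cast Finset.card_biUnion_le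
    _ = ∑ a ∈ I, ((S.filter (fun x => P a x)).card : ℝ) := by push_cast; rfl
    _ ≤ ∑ a ∈ I, B a := by
        apply Finset.sum_le_sum
        intro a ha
        apply hB a ha
        · exact Finset.filter_subset _ _
        · intro x hx; exact (Finset.mem_filter.1 hx).2

/-- Harmonic sum bound. -/
lemma harm (s : ℕ) (e : ℝ) (he : 0 < e) : ∃ C : ℝ, 0 < C ∧ ∀ N : ℕ, 1 ≤ N →
    ∑ v ∈ Finset.Icc 1 (N ^ s), (1 / (v : ℝ)) ≤ C * (N : ℝ) ^ e := by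
  refine ⟨1 + s / e, by positivity, fun N hN => ?_⟩
  have hN1 : (1 : ℝ) ≤ N := by exact_mod_cast hN
  have h1 : ∑ v ∈ Finset.Icc 1 (N ^ s), (1 / (v : ℝ)) ≤ 1 + Real.log ((N ^ s : ℕ) : ℝ) := by
    have := harmonic_le_one_add_log (N ^ s)
    rw [harmonic_eq_sum_Icc] at this
    push_cast at this ⊢
    simpa [one_div] using this
  have h2 : Real.log ((N ^ s : ℕ) : ℝ) = s * Real.log N := by
    push_cast; rw [Real.log_pow]
  have h3 : Real.log (N : ℝ) ≤ (N : ℝ) ^ e / e := Real.log_le_rpow_div (by positivity) he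
  have h4 : (1 : ℝ) ≤ (N : ℝ) ^ e := Real.one_le_rpow hN1 he.le
  rw [h2] at h1
  calc ∑ v ∈ Finset.Icc 1 (N ^ s), (1 / (v : ℝ)) ≤ 1 + s * Real.log N := h1
    _ ≤ (N : ℝ) ^ e + s * ((N : ℝ) ^ e / e) := by
        have := mul_le_mul_of_nonneg_left h3 (Nat.cast_nonneg (α := ℝ) s)
        linarith
    _ = (1 + s / e) * (N : ℝ) ^ e := by ring


lemma divs (hD : DIVStm) (L : ℕ) (e : ℝ) (he : 0 < e) : ∃ C : ℝ, 0 < C ∧ ∀ N : ℕ, 1 ≤ N → ∀ m : ℕ,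
    1 ≤ m → m ≤ N ^ L → (m.divisors.card : ℝ) ≤ C * (N : ℝ) ^ e := by
  have he' : 0 < e / (L + 1) := by positivity
  obtain ⟨C, hC, h⟩ := hD (e / (L + 1)) he'
  refine ⟨C, hC, fun N hN m hm hmN => ?_⟩
  have hN1 : (1 : ℝ) ≤ N := by exact_mod_cast hN
  refine (h m hm).trans ?_
  apply mul_le_mul_of_nonneg_left _ hC.le
  calc (m : ℝ) ^ (e / (L + 1)) ≤ ((N : ℝ) ^ L) ^ (e / (L + 1)) := by
        apply Real.rpow_le_rpow (by positivity) _ he'.le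
        exact_mod_cast hmN
    _ = (N : ℝ) ^ ((L : ℝ) * (e / (L + 1))) := by
        rw [← Real.rpow_natCast, ← Real.rpow_mul (by positivity)]
    _ ≤ (N : ℝ) ^ e := by
        apply Real.rpow_le_rpow_of_exponent_le hN1
        have : (L : ℝ) * (e / (L + 1)) = (L / (L + 1)) * e := by ring
        rw [this]
        have h1 : (L : ℝ) / (L + 1) ≤ 1 := by
          rw [div_le_one (by positivity)]; linarith
        nlinarith

/-- The property of a tuple for fixed `A`, `z`, `y0`, `m`, `v`. -/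
def Q1 (s N : ℕ) (A : Finset (Fin s)) (z : Fin s → ℕ) (y0 m v : ℕ) (x : Fin s → ℕ) : Prop :=
  (∀ i ∈ A, x i = z i) ∧ (∀ i ∈ Aᶜ, x i ≠ y0) ∧ ∃ φ : ℕ, φ ∣ m * v ∧ φ ∣ ∏ i ∈ Aᶜ, ds y0 (x i) ∧
    (v : ℝ) * (N : ℝ) ^ ((s : ℝ) / 8) ≤ (φ : ℝ)

lemma prod_ds_le {s N y0 : ℕ} (B : Finset (Fin s)) (x : Fin s → ℕ) (hy1 : 1 ≤ y0) (hyN : y0 ≤ N)
    (hx : ∀ i, 1 ≤ x i ∧ x i ≤ N) : ∏ i ∈ B, ds y0 (x i) ≤ N ^ s := by
  calc ∏ i ∈ B, ds y0 (x i) ≤ ∏ i ∈ B, N := by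
        apply Finset.prod_le_prod' 
        intro i hi
        exact ds_le hy1 hyN (hx i).1 (hx i).2
    _ = N ^ B.card := by simp
    _ ≤ N ^ s := by
        apply Nat.pow_le_pow_right (by omega)
        simpa using Finset.card_le_univ B

lemma prod_ds_pos {s y0 : ℕ} (B : Finset (Fin s)) (x : Fin s → ℕ) (hx : ∀ i ∈ B, x i ≠ y0) :
    1 ≤ ∏ i ∈ B, ds y0 (x i) := by
  apply Nat.succ_le_of_lt
  apply Finset.prod_pos
  intro i hi
  exact ds_pos (hx i hi)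

lemma inner1 (hD : DIVStm) (hN : CNTStm) (s L : ℕ) (e : ℝ) (he : 0 < e) : ∃ C : ℝ, 0 < C ∧
    ∀ N : ℕ, 1 ≤ N → ∀ (A : Finset (Fin s)) (z : Fin s → ℕ) (y0 m v : ℕ), 1 ≤ y0 → y0 ≤ N → 1 ≤ m →
      m ≤ N ^ L → 1 ≤ v → v ≤ N ^ s → ∀ T : Finset (Fin s → ℕ),
      T ⊆ (Fintype.piFinset fun _ : Fin s => Finset.Icc 1 N) → (∀ x ∈ T, Q1 s N A z y0 m v x) →
      (T.card : ℝ) ≤ C * ((N : ℝ) ^ e) ^ 2 * (N : ℝ) ^ (Aᶜ.card) * (N : ℝ) ^ (-((s : ℝ) / 8)) * (1 / (v : ℝ)) := by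
  obtain ⟨CD, hCD, hdiv⟩ := divs hD (L + s) e he
  obtain ⟨CN, hCN, hcnt⟩ := hN s e he
  refine ⟨CD * CN, by positivity, ?_⟩
  intro N hN1 A z y0 m v hy1 hyN hm1 hmN hv1 hvN T hT hQ
  have hNr : (1 : ℝ) ≤ N := by exact_mod_cast hN1
  have hNp : (0 : ℝ) < N := by linarith
  have hvr : (1 : ℝ) ≤ v := by exact_mod_cast hv1
  have hmv : 1 ≤ m * v := Nat.mul_pos hm1 hv1
  have hmvN : m * v ≤ N ^ (L + s) := by
    rw [pow_add]; exact Nat.mul_le_mul hmN hvN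
  have key : (T.card : ℝ) ≤ ((m * v).divisors.card : ℝ) *
      (CN * (N : ℝ) ^ e * (N : ℝ) ^ (Aᶜ.card) / ((v : ℝ) * (N : ℝ) ^ ((s : ℝ) / 8))) := by
    apply card_le_of_cover T (m * v).divisors (fun φ x => (∀ i ∈ A, x i = z i) ∧ (∀ i ∈ Aᶜ, x i ≠ y0) ∧
      φ ∣ ∏ i ∈ Aᶜ, ds y0 (x i) ∧ (v : ℝ) * (N : ℝ) ^ ((s : ℝ) / 8) ≤ (φ : ℝ))
    · intro x hx
      obtain ⟨h1, h2, φ, h3, h4, h5⟩ := hQ x hx
      exact ⟨φ, by rw [Nat.mem_divisors]; exact ⟨h3, by omega⟩, h1, h2, h4, h5⟩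
    · intro φ hφ T' hT' hP
      rcases T'.eq_empty_or_nonempty with hemp | ⟨x0, hx0⟩
      · rw [hemp]; simp; positivity
      · have hφ1 : 1 ≤ φ := Nat.pos_of_mem_divisors hφ
        obtain ⟨g1, g2, g3, g4⟩ := hP x0 hx0
        have hx0' : ∀ i, 1 ≤ x0 i ∧ x0 i ≤ N := by
          intro i
          have := hT (hT' hx0)
          rw [Fintype.mem_piFinset] at this
          simpa using this i
        have hφN : φ ≤ N ^ s :=
          (Nat.le_of_dvd (prod_ds_pos Aᶜ x0 g2) g3).trans (prod_ds_le Aᶜ x0 hy1 hyN hx0')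
        have h6 := hcnt N hN1 A z y0 φ hy1 hyN hφ1 hφN
        have h7 : (T'.card : ℝ) ≤ CN * (N : ℝ) ^ e * (N : ℝ) ^ (Aᶜ.card) / (φ : ℝ) := by
              refine le_trans (Nat.cast_le.2 (Finset.card_le_card ?_)) h6
              intro x hx
              rw [Finset.mem_filter]
              obtain ⟨k1, k2, k3, k4⟩ := hP x hx
              exact ⟨hT (hT' hx), k1, k2, k3⟩
        refine h7.trans ?_
        apply div_le_div_of_nonneg_left (by positivity) (by positivity) g4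
  have hd := hdiv N hN1 (m * v) hmv hmvN
  calc (T.card : ℝ) ≤ _ := key
    _ ≤ (CD * (N : ℝ) ^ e) * (CN * (N : ℝ) ^ e * (N : ℝ) ^ (Aᶜ.card) / ((v : ℝ) * (N : ℝ) ^ ((s : ℝ) / 8))) := by
        apply mul_le_mul_of_nonneg_right hd (by positivity)
    _ = _ := by
        rw [Real.rpow_neg hNp.le]
        field_simp

lemma inner2 (hD : DIVStm) (hN : CNTStm) (s L : ℕ) (e : ℝ) (he : 0 < e) : ∃ C : ℝ, 0 < C ∧
    ∀ N : ℕ, 1 ≤ N → ∀ (A : Finset (Fin s)) (z : Fin s → ℕ) (y0 m : ℕ), 1 ≤ y0 → y0 ≤ N → 1 ≤ m →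
      m ≤ N ^ L → ∀ T : Finset (Fin s → ℕ),
      T ⊆ (Fintype.piFinset fun _ : Fin s => Finset.Icc 1 N) →
      (∀ x ∈ T, ∃ v, 1 ≤ v ∧ v ≤ N ^ s ∧ Q1 s N A z y0 m v x) →
      (T.card : ℝ) ≤ C * ((N : ℝ) ^ e) ^ 3 * (N : ℝ) ^ (Aᶜ.card) * (N : ℝ) ^ (-((s : ℝ) / 8)) := by
  obtain ⟨C1, hC1, h1⟩ := inner1 hD hN s L e he
  obtain ⟨C2, hC2, h2⟩ := harm s e he
  refine ⟨C1 * C2, by positivity, ?_⟩
  intro N hN1 A z y0 m hy1 hyN hm1 hmN T hT hQ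
  have hNr : (1 : ℝ) ≤ N := by exact_mod_cast hN1
  have hNp : (0 : ℝ) < N := by linarith
  have key : (T.card : ℝ) ≤ ∑ v ∈ Finset.Icc 1 (N ^ s),
      (C1 * ((N : ℝ) ^ e) ^ 2 * (N : ℝ) ^ (Aᶜ.card) * (N : ℝ) ^ (-((s : ℝ) / 8)) * (1 / (v : ℝ))) := by
    apply card_le_of_cover_sum T (Finset.Icc 1 (N ^ s)) (fun v x => Q1 s N A z y0 m v x)
    · intro x hx
      obtain ⟨v, hv1, hv2, hv3⟩ := hQ x hx
      exact ⟨v, by simp [hv1, hv2], hv3⟩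
    · intro v hv T' hT' hP
      rw [Finset.mem_Icc] at hv
      exact h1 N hN1 A z y0 m v hy1 hyN hm1 hmN hv.1 hv.2 T' (hT'.trans hT) hP
  rw [← Finset.mul_sum] at key
  calc (T.card : ℝ) ≤ _ := key
    _ ≤ (C1 * ((N : ℝ) ^ e) ^ 2 * (N : ℝ) ^ (Aᶜ.card) * (N : ℝ) ^ (-((s : ℝ) / 8))) * (C2 * (N : ℝ) ^ e) := by
        apply mul_le_mul_of_nonneg_left (h2 N hN1) (by positivity)
    _ = _ := by ring

/-- The property for fixed `A` and `z`. -/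
def Q3 (d s N : ℕ) (y : Fin (32 * d) → ℕ) (A : Finset (Fin s)) (z : Fin s → ℕ) (x : Fin s → ℕ) : Prop :=
  (∀ i ∈ A, x i = z i) ∧ (∀ i j, x i ≠ y j) ∧ ∃ w : ℕ, w ≤ d ∧ ∃ F : Fin w → Fin (32 * d) → ℕ,
    (∀ l, UU d (32 * d) s N y (fun j => ∏ i ∈ A, ds (y j) (z i)) (F l)) ∧
    ∃ (K v φ : ℕ) (j j₁ j₂ : Fin (32 * d)),
      K ∣ (∏ i ∈ A, ds (y j₁) (z i)) * (∏ i ∈ A, ds (y j₂) (z i)) ∧
      1 ≤ v ∧ v ≤ N ^ s ∧ φ ∣ K * v * ∏ l, F l j ∧ φ ∣ ∏ i ∈ Aᶜ, ds (y j) (x i) ∧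
      (v : ℝ) * (N : ℝ) ^ ((s : ℝ) / 8) ≤ (φ : ℝ)

/-- products of at most `d` elements. -/
lemma prods {n : ℕ} (𝓕 : Finset (Fin n → ℕ)) (d B : ℕ) (M : ℝ) (hM1 : 1 ≤ M) (hM : (𝓕.card : ℝ) ≤ M)
    (hB : 1 ≤ B) (j : Fin n) : ∃ 𝓟 : Finset ℕ, (𝓟.card : ℝ) ≤ (d + 1) * M ^ d ∧
      (∀ P ∈ 𝓟, 1 ≤ P ∧ P ≤ B ^ d) ∧
      ∀ w ≤ d, ∀ F : Fin w → Fin n → ℕ, (∀ l, F l ∈ 𝓕) → (∀ l, 1 ≤ F l j ∧ F l j ≤ B) → ∏ l, F l j ∈ 𝓟 := by
  classical
  refine ⟨((Finset.range (d + 1)).biUnion fun w =>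
    (Fintype.piFinset fun _ : Fin w => 𝓕).image (fun F => ∏ l, F l j)).filter (fun P => 1 ≤ P ∧ P ≤ B ^ d), ?_, ?_, ?_⟩
  · refine le_trans (Nat.cast_le.2 (Finset.card_le_card (Finset.filter_subset _ _))) ?_
    refine le_trans (card_biUnion_le' _ _ (M ^ d) ?_) ?_
    · intro w hw
      rw [Finset.mem_range] at hw
      calc (((Fintype.piFinset fun _ : Fin w => 𝓕).image (fun F => ∏ l, F l j)).card : ℝ)
          ≤ ((Fintype.piFinset fun _ : Fin w => 𝓕).card : ℝ) := by exact_mod_cast Finset.card_image_le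
        _ = (𝓕.card : ℝ) ^ w := by rw [Fintype.card_piFinset]; simp
        _ ≤ M ^ w := by gcongr
        _ ≤ M ^ d := pow_le_pow_right₀ hM1 (by omega)
    · simp
  · intro P hP
    exact (Finset.mem_filter.1 hP).2
  · intro w hw F hF hF2
    rw [Finset.mem_filter]
    refine ⟨?_, ?_, ?_⟩
    · rw [Finset.mem_biUnion]
      refine ⟨w, by simp; omega, ?_⟩
      rw [Finset.mem_image]
      exact ⟨F, by rw [Fintype.mem_piFinset]; exact hF, rfl⟩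
    · exact Nat.succ_le_of_lt (Finset.prod_pos fun l _ => (hF2 l).1)
    · calc ∏ l, F l j ≤ ∏ l : Fin w, B := Finset.prod_le_prod' fun l _ => (hF2 l).2
        _ = B ^ w := by simp
        _ ≤ B ^ d := Nat.pow_le_pow_right hB hw


lemma inner3 (hC : CARDUStm) (hD : DIVStm) (hN : CNTStm) (d s : ℕ) (e : ℝ) (he : 0 < e) :
    ∃ C : ℝ, 0 < C ∧ ∀ N : ℕ, 1 ≤ N → ∀ y : Fin (32 * d) → ℕ, Good (32 * d) N y →
      ∀ (A : Finset (Fin s)) (z : Fin s → ℕ) (T : Finset (Fin s → ℕ)),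
      T ⊆ (Fintype.piFinset fun _ : Fin s => Finset.Icc 1 N) → (∀ x ∈ T, Q3 d s N y A z x) →
      (T.card : ℝ) ≤ C * ((N : ℝ) ^ e) ^ (d + 4) * (N : ℝ) ^ (Aᶜ.card) * (N : ℝ) ^ (-((s : ℝ) / 8)) := by
  obtain ⟨C1, hC1, h1⟩ := inner2 hD hN s (s + s + s * d) e he
  obtain ⟨C2, hC2, h2⟩ := hC d (32 * d) s (by omega) e he
  obtain ⟨C3, hC3, h3⟩ := divs hD (s + s) e he
  set C2' : ℝ := max C2 1 with hC2'
  have hC2'1 : 1 ≤ C2' := le_max_right _ _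
  refine ⟨((32 * d : ℕ) : ℝ) ^ 3 * (C3 * ((d + 1) * C2' ^ d)) * C1 + 1, by positivity, ?_⟩
  intro N hN1 y hy A z T hT hQ
  have hNr : (1 : ℝ) ≤ N := by exact_mod_cast hN1
  have hNp : (0 : ℝ) < N := by linarith
  rcases T.eq_empty_or_nonempty with hemp | ⟨x0, hx0⟩
  · rw [hemp]; simp; positivity
  obtain ⟨q1, q2, -⟩ := hQ x0 hx0
  have hx0' : ∀ i, 1 ≤ x0 i ∧ x0 i ≤ N := by
    intro i
    have := hT hx0
    rw [Fintype.mem_piFinset] at this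
    simpa using this i
  set α : Fin (32 * d) → ℕ := fun j => ∏ i ∈ A, ds (y j) (z i) with hα
  have hαx : ∀ j, α j = ∏ i ∈ A, ds (y j) (x0 i) := by
    intro j
    exact Finset.prod_congr rfl fun i hi => by rw [q1 i hi]
  have hα1 : ∀ j, 1 ≤ α j ∧ α j ≤ N ^ s := by
    intro j
    rw [hαx]
    exact ⟨prod_ds_pos A x0 fun i _ => q2 i j, prod_ds_le A x0 (hy.2 j).1 (hy.2 j).2 hx0'⟩
  obtain ⟨𝓕, h𝓕1, h𝓕2⟩ := h2 N hN1 y hy α hα1
  have hNe : (1 : ℝ) ≤ (N : ℝ) ^ e := Real.one_le_rpow hNr he.le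
  have hM : (𝓕.card : ℝ) ≤ C2' * (N : ℝ) ^ e :=
    h𝓕2.trans (mul_le_mul_of_nonneg_right (le_max_left _ _) (by positivity))
  have hM1 : 1 ≤ C2' * (N : ℝ) ^ e := one_le_mul_of_one_le_of_one_le hC2'1 hNe
  have hB : 1 ≤ N ^ s := Nat.one_le_pow _ _ hN1
  choose 𝓟 hP1 hP2 hP3 using fun j => prods 𝓕 d (N ^ s) _ hM1 hM hB j
  set B : ℝ := C1 * ((N : ℝ) ^ e) ^ 3 * (N : ℝ) ^ (Aᶜ.card) * (N : ℝ) ^ (-((s : ℝ) / 8)) with hBdef
  have hBpos : 0 ≤ B := by rw [hBdef]; positivity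
  have key : (T.card : ℝ) ≤ ((Finset.univ : Finset (Fin (32 * d) × Fin (32 * d) × Fin (32 * d))).card : ℝ) *
      ((C3 * (N : ℝ) ^ e) * ((d + 1) * (C2' * (N : ℝ) ^ e) ^ d) * B) := by
    apply card_le_of_cover T Finset.univ
      (fun (t : Fin (32 * d) × Fin (32 * d) × Fin (32 * d)) (x : Fin s → ℕ) =>
        ∃ K P v : ℕ, K ∣ α t.2.1 * α t.2.2 ∧ P ∈ 𝓟 t.1 ∧ 1 ≤ v ∧ v ≤ N ^ s ∧ Q1 s N A z (y t.1) (K * P) v x)
    · intro x hx
      obtain ⟨g1, g2, w, hw, F, hF, K, v, φ, j, j₁, j₂, hK, hv1, hv2, hφ1, hφ2, hφ3⟩ := hQ x hx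
      refine ⟨(j, j₁, j₂), Finset.mem_univ _, K, ∏ l, F l j, v, hK, ?_, hv1, hv2, g1, fun i _ => g2 i j, φ, ?_, hφ2, hφ3⟩
      · apply hP3 j w hw F
        · intro l; exact h𝓕1 _ (hF l)
        · intro l
          obtain ⟨π, -, -, -, -, h5, -⟩ := hF l
          exact h5 j
      · have : K * v * ∏ l, F l j = K * (∏ l, F l j) * v := by ring
        rwa [this] at hφ1
    · rintro ⟨j, j₁, j₂⟩ - T' hT' hP
      simp only at hP
      have hdj := h3 N hN1 (α j₁ * α j₂) (Nat.mul_pos (hα1 j₁).1 (hα1 j₂).1)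
        (by rw [pow_add]; exact Nat.mul_le_mul (hα1 j₁).2 (hα1 j₂).2)
      have key2 : (T'.card : ℝ) ≤ (((α j₁ * α j₂).divisors ×ˢ 𝓟 j).card : ℝ) * B := by
        apply card_le_of_cover T' _ (fun (t : ℕ × ℕ) (x : Fin s → ℕ) =>
          ∃ v, 1 ≤ v ∧ v ≤ N ^ s ∧ Q1 s N A z (y j) (t.1 * t.2) v x)
        · intro x hx
          obtain ⟨K, P, v, hK, hPm, hv1, hv2, hQ1⟩ := hP x hx
          refine ⟨(K, P), ?_, v, hv1, hv2, hQ1⟩
          rw [Finset.mem_product, Nat.mem_divisors]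
          exact ⟨⟨hK, (Nat.mul_pos (hα1 j₁).1 (hα1 j₂).1).ne'⟩, hPm⟩
        · rintro ⟨K, P⟩ hKP T'' hT'' hQ''
          rw [Finset.mem_product] at hKP
          have hK1 : 1 ≤ K := Nat.pos_of_mem_divisors hKP.1
          have hKle : K ≤ N ^ (s + s) := by
            refine (Nat.le_of_dvd (Nat.mul_pos (hα1 j₁).1 (hα1 j₂).1) (Nat.dvd_of_mem_divisors hKP.1)).trans ?_
            rw [pow_add]; exact Nat.mul_le_mul (hα1 j₁).2 (hα1 j₂).2
          obtain ⟨hPp, hPle⟩ := hP2 j P hKP.2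
          refine h1 N hN1 A z (y j) (K * P) (hy.2 j).1 (hy.2 j).2 (Nat.mul_pos hK1 hPp) ?_ T''
            ((hT''.trans hT').trans hT) hQ''
          rw [pow_add, pow_mul]
          exact Nat.mul_le_mul hKle hPle
      rw [Finset.card_product] at key2
      push_cast at key2
      refine key2.trans ?_
      apply mul_le_mul_of_nonneg_right _ hBpos
      apply mul_le_mul hdj (hP1 j) (by positivity) (by positivity)
  have hcard : ((Finset.univ : Finset (Fin (32 * d) × Fin (32 * d) × Fin (32 * d))).card : ℝ) =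
      ((32 * d : ℕ) : ℝ) ^ 3 := by
    simp only [Finset.card_univ, Fintype.card_prod, Fintype.card_fin]
    push_cast; ring
  rw [hcard] at key
  have hfin : ((32 * d : ℕ) : ℝ) ^ 3 * ((C3 * (N : ℝ) ^ e) * ((d + 1) * (C2' * (N : ℝ) ^ e) ^ d) * B) =
      ((32 * d : ℕ) : ℝ) ^ 3 * (C3 * ((d + 1) * C2' ^ d)) * C1 *
        (((N : ℝ) ^ e) ^ (d + 4) * (N : ℝ) ^ (Aᶜ.card) * (N : ℝ) ^ (-((s : ℝ) / 8))) := by
    rw [hBdef, mul_pow, pow_add]; ring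
  rw [hfin] at key
  have hX : (0 : ℝ) ≤ ((N : ℝ) ^ e) ^ (d + 4) * (N : ℝ) ^ (Aᶜ.card) * (N : ℝ) ^ (-((s : ℝ) / 8)) := by positivity
  calc (T.card : ℝ) ≤ _ := key
    _ ≤ (((32 * d : ℕ) : ℝ) ^ 3 * (C3 * ((d + 1) * C2' ^ d)) * C1 + 1) *
        (((N : ℝ) ^ e) ^ (d + 4) * (N : ℝ) ^ (Aᶜ.card) * (N : ℝ) ^ (-((s : ℝ) / 8))) := by
        apply mul_le_mul_of_nonneg_right _ hX
        linarith
    _ = _ := by ring

/-- The set counted, for a fixed `A`. -/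
def Q4 (d s N : ℕ) (y : Fin (32 * d) → ℕ) (A : Finset (Fin s)) (x : Fin s → ℕ) : Prop :=
  (∀ i j, x i ≠ y j) ∧ ∃ w : ℕ, w ≤ d ∧ ∃ F : Fin w → Fin (32 * d) → ℕ,
    (∀ l, UU d (32 * d) s N y (fun j => ∏ i ∈ A, ds (y j) (x i)) (F l)) ∧
    ∃ (K v φ : ℕ) (j j₁ j₂ : Fin (32 * d)),
      K ∣ (∏ i ∈ A, ds (y j₁) (x i)) * (∏ i ∈ A, ds (y j₂) (x i)) ∧
      1 ≤ v ∧ v ≤ N ^ s ∧ φ ∣ K * v * ∏ l, F l j ∧ φ ∣ ∏ i ∈ Aᶜ, ds (y j) (x i) ∧
      (v : ℝ) * (N : ℝ) ^ ((s : ℝ) / 8) ≤ (φ : ℝ)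

lemma Q4_Q3 {d s N : ℕ} {y : Fin (32 * d) → ℕ} {A : Finset (Fin s)} {x z : Fin s → ℕ}
    (h : Q4 d s N y A x) (hz : ∀ i ∈ A, x i = z i) : Q3 d s N y A z x := by
  obtain ⟨g2, w, hw, F, hF, K, v, φ, j, j₁, j₂, hK, hv1, hv2, hφ1, hφ2, hφ3⟩ := h
  have hpr : ∀ j, ∏ i ∈ A, ds (y j) (x i) = ∏ i ∈ A, ds (y j) (z i) := fun j =>
    Finset.prod_congr rfl fun i hi => by rw [hz i hi]
  refine ⟨hz, g2, w, hw, F, ?_, K, v, φ, j, j₁, j₂, ?_, hv1, hv2, hφ1, hφ2, hφ3⟩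
  · intro l
    have := hF l
    simp only [hpr] at this
    exact this
  · rw [← hpr, ← hpr]; exact hK

lemma inner4 (hC : CARDUStm) (hD : DIVStm) (hN : CNTStm) (d s : ℕ) (e : ℝ) (he : 0 < e) :
    ∃ C : ℝ, 0 < C ∧ ∀ N : ℕ, 1 ≤ N → ∀ y : Fin (32 * d) → ℕ, Good (32 * d) N y →
      ∀ (A : Finset (Fin s)) (T : Finset (Fin s → ℕ)),
      T ⊆ (Fintype.piFinset fun _ : Fin s => Finset.Icc 1 N) → (∀ x ∈ T, Q4 d s N y A x) →
      (T.card : ℝ) ≤ C * ((N : ℝ) ^ e) ^ (d + 4) * (N : ℝ) ^ s * (N : ℝ) ^ (-((s : ℝ) / 8)) := by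
  classical
  obtain ⟨C, hCp, h⟩ := inner3 hC hD hN d s e he
  refine ⟨C, hCp, ?_⟩
  intro N hN1 y hy A T hT hQ
  have key : (T.card : ℝ) ≤ ((Fintype.piFinset fun i : Fin s => if i ∈ A then Finset.Icc 1 N else {1}).card : ℝ) *
      (C * ((N : ℝ) ^ e) ^ (d + 4) * (N : ℝ) ^ (Aᶜ.card) * (N : ℝ) ^ (-((s : ℝ) / 8))) := by
    apply card_le_of_cover T _ (fun z x => Q3 d s N y A z x)
    · intro x hx
      refine ⟨fun i => if i ∈ A then x i else 1, ?_, ?_⟩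
      · rw [Fintype.mem_piFinset]
        intro i
        by_cases hi : i ∈ A
        · have := hT hx
          rw [Fintype.mem_piFinset] at this
          simpa [hi] using this i
        · simp [hi]
      · apply Q4_Q3 (hQ x hx)
        intro i hi
        simp [hi]
    · intro z hz T' hT' hP
      exact h N hN1 y hy A z T' (hT'.trans hT) hP
  have hcard : ((Fintype.piFinset fun i : Fin s => if i ∈ A then Finset.Icc 1 N else {1}).card : ℝ) =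
      (N : ℝ) ^ A.card := by
    rw [Fintype.card_piFinset]
    push_cast
    have : ∀ i : Fin s, (((if i ∈ A then Finset.Icc 1 N else {1} : Finset ℕ).card : ℕ) : ℝ) =
        if i ∈ A then (N : ℝ) else 1 := by
      intro i; split_ifs <;> simp
    simp_rw [this]
    rw [Finset.prod_ite_mem]
    simp
  rw [hcard] at key
  refine key.trans (le_of_eq ?_)
  have hs : (N : ℝ) ^ s = (N : ℝ) ^ A.card * (N : ℝ) ^ Aᶜ.card := by
    rw [← pow_add, Finset.card_add_card_compl]; simp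
  rw [hs]; ring

theorem fin_main (hE : EXCStm) (hS : STRStm) (hC : CARDUStm) (hN : CNTStm) (hD : DIVStm) : MAINStm := by
  classical
  intro d s hd hs
  have he : (0 : ℝ) < 1 / ((d : ℝ) + 4) := by positivity
  obtain ⟨C1, hC1, h1⟩ := inner4 hC hD hN d s _ he
  obtain ⟨C2, hC2, h2⟩ := hE s (32 * d)
  obtain ⟨N0, hN0⟩ := hS d s hd hs
  refine ⟨2 ^ s * C1 + C2 + (N0 : ℝ) ^ s, by positivity, ?_⟩
  intro N hN1 y hy
  have hNr : (1 : ℝ) ≤ N := by exact_mod_cast hN1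
  have hNp : (0 : ℝ) < N := by linarith
  have hexp : (0 : ℝ) ≤ (s : ℝ) - (s : ℝ) / 8 + 1 := by
    have : (0 : ℝ) ≤ s := Nat.cast_nonneg s
    linarith
  have hX1 : (1 : ℝ) ≤ (N : ℝ) ^ ((s : ℝ) - (s : ℝ) / 8 + 1) := Real.one_le_rpow hNr hexp
  rcases lt_or_ge N N0 with hlt | hge
  · have hc : ((ZS d (32 * d) s N y).card : ℝ) ≤ (N : ℝ) ^ s := by
      refine le_trans (Nat.cast_le.2 (Finset.card_le_card (Finset.filter_subset _ _))) ?_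
      rw [Fintype.card_piFinset]; simp
    calc ((ZS d (32 * d) s N y).card : ℝ) ≤ (N : ℝ) ^ s := hc
      _ ≤ (N0 : ℝ) ^ s := by
          apply pow_le_pow_left₀ hNp.le
          exact_mod_cast hlt.le
      _ = (N0 : ℝ) ^ s * 1 := by ring
      _ ≤ (N0 : ℝ) ^ s * (N : ℝ) ^ ((s : ℝ) - (s : ℝ) / 8 + 1) :=
          mul_le_mul_of_nonneg_left hX1 (by positivity)
      _ ≤ _ := by
          apply mul_le_mul_of_nonneg_right _ (by positivity)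
          have : 0 ≤ 2 ^ s * C1 + C2 := by positivity
          linarith
  · have hsplit : ZS d (32 * d) s N y ⊆
        ((Fintype.piFinset fun _ : Fin s => Finset.Icc 1 N).filter (fun x : Fin s → ℕ =>
          (∀ i j, x i ≠ y j) ∧ ∃ j, ((vf (Vd y) (∏ i, ds (y j) (x i)) : ℕ) : ℝ) < (N : ℝ) ^ ((7 / 8 : ℝ) * s))) ∪
        ((ZS d (32 * d) s N y).filter (fun x => STRc d s N y x)) := by
      intro x hx
      rw [Finset.mem_union]
      by_cases hex : ∃ j, ((vf (Vd y) (∏ i, ds (y j) (x i)) : ℕ) : ℝ) < (N : ℝ) ^ ((7 / 8 : ℝ) * s)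
      · left
        rw [Finset.mem_filter]
        have hx' := hx
        unfold ZS at hx'
        rw [Finset.mem_filter] at hx'
        exact ⟨hx'.1, hx'.2.1, hex⟩
      · right
        push Not at hex
        rw [Finset.mem_filter]
        exact ⟨hx, hN0 N hge y hy x hx hex⟩
    have hT : (((ZS d (32 * d) s N y).filter (fun x => STRc d s N y x)).card : ℝ) ≤
        ((Finset.univ : Finset (Finset (Fin s))).card : ℝ) *
        (C1 * ((N : ℝ) ^ (1 / ((d : ℝ) + 4))) ^ (d + 4) * (N : ℝ) ^ s * (N : ℝ) ^ (-((s : ℝ) / 8))) := by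
      apply card_le_of_cover _ _ (fun A x => Q4 d s N y A x)
      · intro x hx
        rw [Finset.mem_filter] at hx
        obtain ⟨hx1, A, hA⟩ := hx
        unfold ZS at hx1
        rw [Finset.mem_filter] at hx1
        exact ⟨A, Finset.mem_univ _, hx1.2.1, hA⟩
      · intro A _ T' hT' hP
        refine h1 N hN1 y hy A T' ?_ hP
        refine hT'.trans ((Finset.filter_subset _ _).trans ?_)
        exact Finset.filter_subset _ _
    have hpow : ((N : ℝ) ^ (1 / ((d : ℝ) + 4))) ^ (d + 4) = N := by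
      rw [← Real.rpow_natCast, ← Real.rpow_mul hNp.le]
      push_cast
      rw [one_div, inv_mul_cancel₀ (by positivity), Real.rpow_one]
    rw [hpow] at hT
    have hcardA : ((Finset.univ : Finset (Finset (Fin s))).card : ℝ) = 2 ^ s := by
      simp
    rw [hcardA] at hT
    have hNs : (N : ℝ) * (N : ℝ) ^ s * (N : ℝ) ^ (-((s : ℝ) / 8)) = (N : ℝ) ^ ((s : ℝ) - (s : ℝ) / 8 + 1) := by
      rw [← Real.rpow_natCast]
      nth_rewrite 1 [← Real.rpow_one (N : ℝ)]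
      rw [← Real.rpow_add hNp, ← Real.rpow_add hNp]
      congr 1; ring
    have hT2 : (((ZS d (32 * d) s N y).filter (fun x => STRc d s N y x)).card : ℝ) ≤
        2 ^ s * C1 * (N : ℝ) ^ ((s : ℝ) - (s : ℝ) / 8 + 1) := by
      refine hT.trans (le_of_eq ?_)
      rw [← hNs]; ring
    have hEx := h2 N hN1 y hy
    have hE2 : (7 / 8 : ℝ) * s + 1 = (s : ℝ) - (s : ℝ) / 8 + 1 := by ring
    rw [hE2] at hEx
    have hcu : ((ZS d (32 * d) s N y).card : ℝ) ≤ _ :=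
      le_trans (Nat.cast_le.2 (Finset.card_le_card hsplit)) (Nat.cast_le.2 (Finset.card_union_le _ _))
    rw [Nat.cast_add] at hcu
    have hN0p : 0 ≤ (N0 : ℝ) ^ s * (N : ℝ) ^ ((s : ℝ) - (s : ℝ) / 8 + 1) := by positivity
    calc ((ZS d (32 * d) s N y).card : ℝ) ≤ _ := hcu
      _ ≤ C2 * (N : ℝ) ^ ((s : ℝ) - (s : ℝ) / 8 + 1) + 2 ^ s * C1 * (N : ℝ) ^ ((s : ℝ) - (s : ℝ) / 8 + 1) :=
          add_le_add hEx hT2
      _ ≤ _ := by nlinarith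

end Pool.Agent.W89.VP.FinP
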