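import Pool.Agent.W89.VP.StrB

set_option autoImplicit false

namespace Pool.Agent.W89.VP

open Finset Polynomial

lemma log_nn (a : ℕ) : 0 ≤ Real.log (a : ℝ) := Real.log_natCast_nonneg a

lemma log_prod_nat {ι : Type*} (s : Finset ι) (f : ι → ℕ) (h : ∀ i ∈ s, 1 ≤ f i) :
    Real.log ((∏ i ∈ s, f i : ℕ) : ℝ) = ∑ i ∈ s, Real.log (f i : ℝ) := by
  rw [Nat.cast_prod, Real.log_prod]
  intro i hi
  have := h i hi
  positivity

lemma prod_pos' {ι : Type*} (s : Finset ι) (f : ι → ℕ) (h : ∀ i ∈ s, 1 ≤ f i) :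
    1 ≤ ∏ i ∈ s, f i :=
  Nat.one_le_iff_ne_zero.2 (Finset.prod_ne_zero_iff.2 (fun i hi => by have := h i hi; omega))

/-- the threshold is beaten -/
lemma Tb_lt (d n N δ : ℕ) (hd : 1 ≤ d) (hn : n = 32 * d) (hδ : 1 ≤ δ) (hδd : δ + 1 ≤ d)
    (hN : 2 ≤ N) (hN2 : (2 * d).factorial * 4 ^ n + 1 ≤ N) (F p : Fin n → ℕ) (hF : ∀ j, 1 ≤ F j)
    (hp : ∀ j, 1 ≤ p j) (h : ℝ)
    (hh : ∑ j, Real.log (F j : ℝ) = n * Real.log N * h)
    (hh1 : (δ : ℝ) + 1 ≤ h)
    (hpp : n * Real.log N * (h / 8) ≤ ∑ j, Real.log (p j : ℝ)) :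
    Tb n δ N F < ∏ j, (p j : ℝ) := by
  have hN0 : (0 : ℝ) < N := by positivity
  have hL : 0 < Real.log N := Real.log_pos (by exact_mod_cast hN)
  have hn0 : (0 : ℝ) < n := by rw [hn]; positivity
  have hFp : (0 : ℝ) < ∏ j, (F j : ℝ) := Finset.prod_pos (fun j _ => by have := hF j; positivity)
  have hpp0 : (0 : ℝ) < ∏ j, (p j : ℝ) := Finset.prod_pos (fun j _ => by have := hp j; positivity)
  have hTb0 : 0 < Tb n δ N F := by
    unfold Tb
    positivity
  rw [← Real.log_lt_log_iff hTb0 hpp0]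
  have hf : ((2 * δ).factorial : ℝ) * 4 ^ n < N := by
    have h1 : (2 * δ).factorial ≤ (2 * d).factorial := Nat.factorial_le (by omega)
    have h2 : (2 * δ).factorial * 4 ^ n < N := by
      have := Nat.mul_le_mul_right (4 ^ n) h1
      omega
    exact_mod_cast h2
  have e1 : Real.log (Tb n δ N F) = Real.log (((2 * δ).factorial : ℝ) * 4 ^ n) +
      (2 * δ * (δ - 1) : ℕ) * Real.log N + (2 * (δ : ℝ)) / n * (n * Real.log N * h) := by
    unfold Tb
    rw [Real.log_mul (by positivity) (by positivity), Real.log_mul (by positivity) (by positivity),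
      Real.log_mul (by positivity) (by positivity), Real.log_pow, Real.log_rpow hFp,
      Real.log_prod (fun j _ => by have := hF j; positivity), hh,
      Real.log_mul (by positivity) (by positivity)]
    push_cast
    ring
  have e2 : Real.log (((2 * δ).factorial : ℝ) * 4 ^ n) < Real.log N :=
    Real.log_lt_log (by positivity) hf
  have e3 : Real.log (∏ j, (p j : ℝ)) = ∑ j, Real.log (p j : ℝ) :=
    Real.log_prod (fun j _ => by have := hp j; positivity)
  rw [e1, e3]
  refine lt_of_lt_of_le ?_ hpp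
  have e4 : ((2 * δ * (δ - 1) : ℕ) : ℝ) = 2 * δ * (δ - 1) := by
    obtain ⟨e, rfl⟩ : ∃ e, δ = e + 1 := ⟨δ - 1, by omega⟩
    simp only [Nat.add_sub_cancel]
    push_cast
    ring
  rw [e4]
  have e5 : (2 * (δ : ℝ)) / n * (n * Real.log N * h) = 2 * δ * (Real.log N * h) := by
    field_simp
  rw [e5]
  have hnd : (n : ℝ) = 32 * d := by rw [hn]; push_cast; ring
  rw [hnd]
  have hdδ : (δ : ℝ) + 1 ≤ d := by exact_mod_cast hδd
  have hδ1 : (1 : ℝ) ≤ δ := by exact_mod_cast hδ
  -- L * stuff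
  have key : 1 + 2 * (δ : ℝ) * (δ - 1) + 2 * δ * h ≤ 32 * d * (h / 8) := by
    have h0 : (0:ℝ) ≤ h := by linarith
    have : 4 * ((δ : ℝ) + 1) * h ≤ 32 * d * (h / 8) := by nlinarith
    nlinarith
  have := mul_le_mul_of_nonneg_left key hL.le
  nlinarith

/-- The structure found for a non-exceptional tuple (general `n`). -/
def STRn (d n s N : ℕ) (y : Fin n → ℕ) (x : Fin s → ℕ) : Prop :=
  ∃ A : Finset (Fin s), ∃ w : ℕ, w ≤ d ∧ ∃ F : Fin w → Fin n → ℕ,
    (∀ l, UU d n s N y (fun j => ∏ i ∈ A, ds (y j) (x i)) (F l)) ∧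
    ∃ (K v φ : ℕ) (j j₁ j₂ : Fin n),
      K ∣ (∏ i ∈ A, ds (y j₁) (x i)) * (∏ i ∈ A, ds (y j₂) (x i)) ∧
      1 ≤ v ∧ v ≤ N ^ s ∧ φ ∣ K * v * ∏ l, F l j ∧ φ ∣ ∏ i ∈ Aᶜ, ds (y j) (x i) ∧
      (v : ℝ) * (N : ℝ) ^ ((s : ℝ) / 8) ≤ (φ : ℝ)

theorem str_aux (hFAC : FACStm) (hVF : VFStm) (hREF : REFStm) (hAVG : AVGStm) (d n s : ℕ)
    (hn : n = 32 * d) (hd : 1 ≤ d) (hs : 40 * d ≤ s) (N : ℕ)
    (hN2 : 2 ≤ N) (hN3 : (2 * d).factorial * 4 ^ n + 1 ≤ N)
    (y : Fin n → ℕ) (hy : Good n N y) (x : Fin s → ℕ) (hx : x ∈ ZS d n s N y)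
    (hvf : ∀ j, (N : ℝ) ^ ((7 / 8 : ℝ) * s) ≤ ((vf (Vd y) (∏ i, ds (y j) (x i)) : ℕ) : ℝ)) :
    STRn d n s N y x := by
  classical
  obtain ⟨c, w, π, g, γ, j₁, j₂, hc, hπ, hdd, hQ, hds, hg, hg0, hgl, hγ1, hγ2, hγd⟩ :=
    data_B hFAC hVF hREF d n s N (by omega) y hy x hx
  obtain ⟨v1, v2, v3, v4, v5, v6⟩ := hVF
  obtain ⟨hxm, hxy, -⟩ : x ∈ (Fintype.piFinset fun _ : Fin s => Finset.Icc 1 N) ∧
      (∀ i j, x i ≠ y j) ∧ ∃ R : ℤ[X], R.degree < (d : WithBot ℕ) ∧
      ∀ j, R.eval (y j : ℤ) = ∏ i : Fin s, ((y j : ℤ) - (x i : ℤ)) := by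
    have hx' := hx
    unfold ZS at hx'
    rw [Finset.mem_filter] at hx'
    exact hx'
  have hxN : ∀ i, 1 ≤ x i ∧ x i ≤ N := fun i => Finset.mem_Icc.1 (Fintype.mem_piFinset.1 hxm i)
  have hV : 1 ≤ Vd y := Vd_pos hy.1
  have hU1 : ∀ j i, 1 ≤ ds (y j) (x i) := fun j i => ds_pos (hxy i j)
  have hUN : ∀ j i, ds (y j) (x i) ≤ N := fun j i => ds_le (hy.2 j) (hxN i)
  have hg1 : ∀ j i o, 1 ≤ g j i o := by
    intro j i o
    have h2 : ∏ l, g j i l ≠ 0 := by
      rw [← hg j i]; have := v2 (Vd y) _ (hU1 j i); omega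
    exact Nat.one_le_iff_ne_zero.2 (Finset.prod_ne_zero_iff.1 h2 o (Finset.mem_univ _))
  have hvfle : ∀ u, 1 ≤ u → vf (Vd y) u ≤ u := fun u hu => Nat.le_of_dvd hu (v1 _ _ hu)
  have hgN : ∀ j i o, g j i o ≤ N := by
    intro j i o
    refine le_trans ?_ (hUN j i)
    refine le_trans ?_ (hvfle _ (hU1 j i))
    rw [hg j i]
    exact Nat.le_of_dvd (prod_pos' _ _ (fun o _ => hg1 j i o))
      (Finset.dvd_prod_of_mem (fun l => g j i l) (Finset.mem_univ o))
  have hγ1' : ∀ i i', 1 ≤ γ i i' := by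
    intro i i'
    have h2 : ∏ i', γ i i' ≠ 0 := by
      rw [← hγ1 i]; have := hg1 j₁ i none; omega
    exact Nat.one_le_iff_ne_zero.2 (Finset.prod_ne_zero_iff.1 h2 i' (Finset.mem_univ _))
  have hL : 0 < Real.log N := Real.log_pos (by exact_mod_cast hN2)
  have hd0 : (0 : ℝ) < d := by positivity
  have hn0 : (0 : ℝ) < n := by rw [hn]; positivity
  have hnL : (0 : ℝ) < n * Real.log N := by positivity
  -- masses
  let m0 : Fin s → ℝ := fun i => (∑ j, Real.log (g j i none : ℝ)) / (n * Real.log N)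
  let m : Fin w → Fin s → ℝ := fun l i => (∑ j, Real.log (g j i (some l) : ℝ)) / (n * Real.log N)
  let h : Fin w → ℝ := fun l =>
    (∑ j, Real.log (((π l).eval (y j : ℤ)).natAbs : ℝ)) / (n * Real.log N)
  let γr : Fin s → Fin s → ℝ := fun i i' => Real.log (γ i i' : ℝ) / Real.log N
  have hmass : ∀ l, ∑ i, m l i = (∑ j, Real.log (vf (Vd y) ((π l).eval (y j : ℤ)).natAbs : ℝ)) /
      (n * Real.log N) := by
    intro l
    simp only [m]
    rw [← Finset.sum_div, Finset.sum_comm]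
    congr 1
    apply Finset.sum_congr rfl
    intro j _
    rw [hgl j l, log_prod_nat _ _ (fun i _ => hg1 j i (some l))]
  have hmass0 : ∑ i, m0 i = Real.log (vf (Vd y) c : ℝ) / Real.log N := by
    simp only [m0]
    rw [← Finset.sum_div, Finset.sum_comm]
    have : ∀ j ∈ (Finset.univ : Finset (Fin n)), ∑ i, Real.log (g j i none : ℝ) =
        Real.log (vf (Vd y) c : ℝ) := by
      intro j _
      rw [hg0 j, log_prod_nat _ _ (fun i _ => hg1 j i none)]
    rw [Finset.sum_congr rfl this, Finset.sum_const, Finset.card_univ, Fintype.card_fin,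
      nsmul_eq_mul]
    field_simp
  have hm : ∀ l i, 0 ≤ m l i ∧ m l i ≤ 1 := by
    intro l i
    constructor
    · exact div_nonneg (Finset.sum_nonneg (fun j _ => log_nn _)) hnL.le
    · rw [div_le_one hnL]
      calc ∑ j, Real.log (g j i (some l) : ℝ) ≤ ∑ _j : Fin n, Real.log (N : ℝ) := by
            apply Finset.sum_le_sum
            intro j _
            apply Real.log_le_log
            · have := hg1 j i (some l); positivity
            · exact_mod_cast hgN j i (some l)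
        _ = n * Real.log N := by simp
  have hδ : ∀ l, 1 ≤ (π l).natDegree := fun l => (hπ l).2
  have hh : ∀ l, ∑ i, m l i ≤ h l := by
    intro l
    rw [hmass l]
    apply div_le_div_of_nonneg_right _ hnL.le
    apply Finset.sum_le_sum
    intro j _
    apply Real.log_le_log
    · have := v2 (Vd y) _ (hQ j l); positivity
    · exact_mod_cast hvfle _ (hQ j l)
  have hγ0 : ∀ i, γr i i = 0 := by
    intro i
    simp [γr, hγd i]
  have hγs : ∑ i, ∑ i', γr i i' = ∑ i, m0 i := by
    rw [hmass0]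
    simp only [γr]
    have : ∀ i ∈ (Finset.univ : Finset (Fin s)), ∑ i', Real.log (γ i i' : ℝ) / Real.log N =
        Real.log (g j₁ i none : ℝ) / Real.log N := by
      intro i _
      rw [← Finset.sum_div, hγ1 i, log_prod_nat _ _ (fun i' _ => hγ1' i i')]
    rw [Finset.sum_congr rfl this, ← Finset.sum_div, hg0 j₁,
      log_prod_nat _ _ (fun i _ => hg1 j₁ i none)]
  have hvfsum : ∀ j, Real.log (vf (Vd y) (∏ i, ds (y j) (x i)) : ℝ) =
      Real.log (vf (Vd y) c : ℝ) +
        ∑ l, Real.log (vf (Vd y) ((π l).eval (y j : ℤ)).natAbs : ℝ) := by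
    intro j
    rw [hds j, v4 _ _ _ hc (prod_pos' _ _ (fun l _ => hQ j l)), v6 _ _ _ (fun l => hQ j l),
      Nat.cast_mul, Real.log_mul, log_prod_nat]
    · intro l _
      exact v2 _ _ (hQ j l)
    · have := v2 (Vd y) _ hc; positivity
    · have := prod_pos' Finset.univ (fun l => vf (Vd y) ((π l).eval (y j : ℤ)).natAbs)
        (fun l _ => v2 _ _ (hQ j l))
      positivity
  have hsum1 : (7 / 8 : ℝ) * s ≤ ∑ i, m0 i + ∑ l, ∑ i, m l i := by
    have e1 : ∑ l, ∑ i, m l i = (∑ j, ∑ l,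
        Real.log (vf (Vd y) ((π l).eval (y j : ℤ)).natAbs : ℝ)) / (n * Real.log N) := by
      rw [Finset.sum_congr rfl (fun l _ => hmass l), ← Finset.sum_div, Finset.sum_comm]
    have e2 : ∑ i, m0 i = (∑ _j : Fin n, Real.log (vf (Vd y) c : ℝ)) / (n * Real.log N) := by
      rw [hmass0, Finset.sum_const, Finset.card_univ, Fintype.card_fin, nsmul_eq_mul]
      field_simp
    rw [e1, e2, ← add_div, ← Finset.sum_add_distrib, le_div_iff₀ hnL]
    calc (7 / 8 : ℝ) * s * (n * Real.log N) = ∑ _j : Fin n, ((7 / 8 : ℝ) * s) * Real.log N := by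
          rw [Finset.sum_const, Finset.card_univ, Fintype.card_fin, nsmul_eq_mul]; ring
      _ ≤ _ := by
          apply Finset.sum_le_sum
          intro j _
          rw [← hvfsum j, ← Real.log_rpow (by positivity)]
          exact Real.log_le_log (by positivity) (hvf j)
  have hsum2 : ∑ i, m0 i + ∑ l, h l ≤ s := by
    have e1 : ∑ l, h l = (∑ j, ∑ l,
        Real.log (((π l).eval (y j : ℤ)).natAbs : ℝ)) / (n * Real.log N) := by
      simp only [h]
      rw [← Finset.sum_div, Finset.sum_comm]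
    have e2 : ∑ i, m0 i = (∑ _j : Fin n, Real.log (vf (Vd y) c : ℝ)) / (n * Real.log N) := by
      rw [hmass0, Finset.sum_const, Finset.card_univ, Fintype.card_fin, nsmul_eq_mul]
      field_simp
    rw [e1, e2, ← add_div, ← Finset.sum_add_distrib, div_le_iff₀ hnL]
    calc _ ≤ ∑ _j : Fin n, (s : ℝ) * Real.log N := by
          apply Finset.sum_le_sum
          intro j _
          have e3 : Real.log (vf (Vd y) c : ℝ) ≤ Real.log (c : ℝ) := by
            apply Real.log_le_log
            · have := v2 (Vd y) _ hc; positivity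
            · exact_mod_cast hvfle _ hc
          have e4 : Real.log ((∏ i, ds (y j) (x i) : ℕ) : ℝ) = Real.log (c : ℝ) +
              ∑ l, Real.log (((π l).eval (y j : ℤ)).natAbs : ℝ) := by
            rw [hds j, Nat.cast_mul, Real.log_mul, log_prod_nat]
            · intro l _; exact hQ j l
            · positivity
            · have := prod_pos' Finset.univ (fun l => ((π l).eval (y j : ℤ)).natAbs)
                (fun l _ => hQ j l)
              positivity
          have e5 : Real.log ((∏ i, ds (y j) (x i) : ℕ) : ℝ) ≤ s * Real.log N := by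
            rw [log_prod_nat _ _ (fun i _ => hU1 j i)]
            calc _ ≤ ∑ _i : Fin s, Real.log (N : ℝ) := by
                  apply Finset.sum_le_sum
                  intro i _
                  apply Real.log_le_log
                  · have := hU1 j i; positivity
                  · exact_mod_cast hUN j i
              _ = _ := by simp
          linarith
      _ = _ := by
          rw [Finset.sum_const, Finset.card_univ, Fintype.card_fin, nsmul_eq_mul]; ring
  obtain ⟨A, hA⟩ := exists_A hAVG d s w hs m0 m h (fun l => (π l).natDegree) γr hm hδ hdd hh hγ0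
    hγs hsum1 hsum2
  -- the set of good factors
  let P : Fin w → Prop := fun l => (h l / 2 ≤ ∑ i, m l i ∧ ((π l).natDegree : ℝ) + 1 ≤ h l ∧
    8 ≤ ∑ i, m l i) ∧ (∑ i, m l i) / 4 ≤ ∑ i ∈ A, m l i
  let LA : Finset (Fin w) := Finset.univ.filter P
  have hAP : (s : ℝ) / 8 ≤ ∑ i ∈ Aᶜ, m0 i + ∑ l ∈ LA, ∑ i ∈ Aᶜ, m l i
      - ∑ i ∈ Aᶜ, ∑ i' ∈ Aᶜ, γr i i' := by
    rw [Finset.sum_filter]
    convert hA using 3
  let φ : Fin n → ℕ := fun j => (∏ i ∈ Aᶜ, g j i none) * ∏ l ∈ LA, ∏ i ∈ Aᶜ, g j i (some l)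
  let v : ℕ := ∏ i ∈ Aᶜ, ∏ i' ∈ Aᶜ, γ i i'
  let K : ℕ := (∏ i ∈ A, ∏ i', γ i i') * ∏ i ∈ Aᶜ, ∏ i' ∈ A, γ i i'
  have hKv : K * v = vf (Vd y) c := by
    have e1 : vf (Vd y) c = ∏ i, ∏ i', γ i i' := by
      rw [hg0 j₁]
      exact Finset.prod_congr rfl (fun i _ => hγ1 i)
    rw [e1, ← Finset.prod_compl_mul_prod A (fun i => ∏ i', γ i i')]
    have e2 : ∏ i ∈ Aᶜ, ∏ i', γ i i' = (∏ i ∈ Aᶜ, ∏ i' ∈ Aᶜ, γ i i') * ∏ i ∈ Aᶜ, ∏ i' ∈ A, γ i i' := by
      rw [← Finset.prod_mul_distrib]
      exact Finset.prod_congr rfl (fun i _ => (Finset.prod_compl_mul_prod A _).symm)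
    rw [e2]
    simp only [K, v]
    ring
  have hv1 : 1 ≤ v := prod_pos' _ _ (fun i _ => prod_pos' _ _ (fun i' _ => hγ1' i i'))
  have hφ1 : ∀ j, 1 ≤ φ j := fun j => Nat.mul_pos
    (prod_pos' _ _ (fun i _ => hg1 j i none))
    (prod_pos' _ _ (fun l _ => prod_pos' _ _ (fun i _ => hg1 j i (some l))))
  have hlogv : Real.log (v : ℝ) = (∑ i ∈ Aᶜ, ∑ i' ∈ Aᶜ, γr i i') * Real.log N := by
    have e1 : Real.log (v : ℝ) = ∑ i ∈ Aᶜ, ∑ i' ∈ Aᶜ, Real.log (γ i i' : ℝ) := by
      simp only [v]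
      rw [log_prod_nat _ _ (fun i _ => prod_pos' _ _ (fun i' _ => hγ1' i i'))]
      exact Finset.sum_congr rfl (fun i _ => log_prod_nat _ _ (fun i' _ => hγ1' i i'))
    rw [e1, Finset.sum_mul]
    apply Finset.sum_congr rfl
    intro i _
    rw [Finset.sum_mul]
    apply Finset.sum_congr rfl
    intro i' _
    simp only [γr]
    field_simp
  have hlogφ : ∑ j, Real.log (φ j : ℝ) = (∑ i ∈ Aᶜ, m0 i + ∑ l ∈ LA, ∑ i ∈ Aᶜ, m l i) *
      (n * Real.log N) := by
    have e1 : ∀ j ∈ (Finset.univ : Finset (Fin n)), Real.log (φ j : ℝ) =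
        ∑ i ∈ Aᶜ, Real.log (g j i none : ℝ) + ∑ l ∈ LA, ∑ i ∈ Aᶜ, Real.log (g j i (some l) : ℝ) := by
      intro j _
      simp only [φ]
      rw [Nat.cast_mul, Real.log_mul, log_prod_nat _ _ (fun i _ => hg1 j i none),
        log_prod_nat _ _ (fun l _ => prod_pos' _ _ (fun i _ => hg1 j i (some l)))]
      · congr 1
        exact Finset.sum_congr rfl (fun l _ => log_prod_nat _ _ (fun i _ => hg1 j i (some l)))
      · have := prod_pos' Aᶜ (fun i => g j i none) (fun i _ => hg1 j i none)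
        positivity
      · have := prod_pos' LA (fun l => ∏ i ∈ Aᶜ, g j i (some l))
          (fun l _ => prod_pos' _ _ (fun i _ => hg1 j i (some l)))
        positivity
    rw [Finset.sum_congr rfl e1, Finset.sum_add_distrib, add_mul]
    congr 1
    · rw [Finset.sum_comm, Finset.sum_mul]
      apply Finset.sum_congr rfl
      intro i _
      simp only [m0]
      field_simp
    · rw [Finset.sum_comm, Finset.sum_mul]
      apply Finset.sum_congr rfl
      intro l _
      rw [Finset.sum_comm, Finset.sum_mul]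
      apply Finset.sum_congr rfl
      intro i _
      simp only [m]
      field_simp
  -- best j
  obtain ⟨j, -, hj⟩ : ∃ j ∈ (Finset.univ : Finset (Fin n)),
      Real.log (v : ℝ) + (s : ℝ) / 8 * Real.log N ≤ Real.log (φ j : ℝ) := by
    apply Finset.exists_le_of_sum_le ⟨j₁, Finset.mem_univ _⟩
    rw [hlogφ, Finset.sum_const, Finset.card_univ, Fintype.card_fin, nsmul_eq_mul, hlogv]
    have := mul_le_mul_of_nonneg_right hAP hnL.le
    nlinarith
  refine ⟨A, LA.card, ?_, fun l j => ((π (LA.equivFin.symm l)).eval (y j : ℤ)).natAbs, ?_,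
    K, v, φ j, j, j₁, j₂, ?_, hv1, ?_, ?_, ?_, ?_⟩
  · -- card LA ≤ d
    calc LA.card ≤ w := by
          have := Finset.card_le_univ LA
          simpa using this
      _ = ∑ _l : Fin w, 1 := by simp
      _ ≤ ∑ l, (π l).natDegree := Finset.sum_le_sum (fun l _ => hδ l)
      _ ≤ d := by omega
  · intro l'
    set l : Fin w := (LA.equivFin.symm l' : Fin w) with hl
    have hlP : P l := (Finset.mem_filter.1 (LA.equivFin.symm l').2).2
    have hdl : (π l).natDegree + 1 ≤ d := by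
      have := Finset.single_le_sum (f := fun l => (π l).natDegree) (fun _ _ => Nat.zero_le _)
        (Finset.mem_univ l)
      omega
    refine ⟨π l, (hπ l).1, hδ l, by omega, fun j => rfl, ?_, fun j => ∏ i ∈ A, g j i (some l),
      ?_, ?_, ?_, ?_⟩
    · intro j
      refine ⟨hQ j l, ?_⟩
      have e1 : ((π l).eval (y j : ℤ)).natAbs ≤ ∏ i, ds (y j) (x i) := by
        apply Nat.le_of_dvd (prod_pos' _ _ (fun i _ => hU1 j i))
        rw [hds j]
        exact Dvd.dvd.mul_left (Finset.dvd_prod_of_mem _ (Finset.mem_univ l)) _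
      refine le_trans e1 ?_
      have := Finset.prod_le_pow_card (Finset.univ : Finset (Fin s)) (fun i => ds (y j) (x i)) N
        (fun i _ => hUN j i)
      simpa using this
    · intro j
      apply Finset.prod_dvd_prod_of_dvd
      intro i _
      refine dvd_trans ?_ (v1 (Vd y) _ (hU1 j i))
      rw [hg j i]
      exact Finset.dvd_prod_of_mem (fun l => g j i l) (Finset.mem_univ (some l))
    · intro j
      refine Nat.Coprime.coprime_dvd_left ?_ (v3 _ _ hV (hQ j l))
      rw [hgl j l]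
      exact Finset.prod_dvd_prod_of_subset _ _ _ (Finset.subset_univ A)
    · intro j
      refine dvd_trans ?_ (v1 (Vd y) _ (hQ j l))
      rw [hgl j l]
      exact Finset.prod_dvd_prod_of_subset _ _ _ (Finset.subset_univ A)
    · have e1 : ∀ j, 1 ≤ ∏ i ∈ A, g j i (some l) := fun j => prod_pos' _ _ (fun i _ => hg1 j i _)
      have e2 := Tb_lt d n N (π l).natDegree hd hn (hδ l) hdl hN2 hN3
        (fun j => ((π l).eval (y j : ℤ)).natAbs) (fun j => ∏ i ∈ A, g j i (some l))
        (fun j => hQ j l) e1 (h l) (by simp only [h]; field_simp) hlP.1.2.1 (by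
          have e3 : ∑ j, Real.log ((∏ i ∈ A, g j i (some l) : ℕ) : ℝ) =
              (∑ i ∈ A, m l i) * (n * Real.log N) := by
            rw [Finset.sum_congr rfl (fun j _ => log_prod_nat A (fun i => g j i (some l))
              (fun i _ => hg1 j i (some l))), Finset.sum_comm, Finset.sum_mul]
            apply Finset.sum_congr rfl
            intro i _
            simp only [m]
            field_simp
          rw [e3]
          have e4 : h l / 8 ≤ ∑ i ∈ A, m l i := by
            have := hlP.2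
            have := hlP.1.1
            linarith
          nlinarith)
      exact e2
  · apply mul_dvd_mul
    · apply Finset.prod_dvd_prod_of_dvd
      intro i _
      rw [← hγ1 i]
      refine dvd_trans ?_ (v1 (Vd y) _ (hU1 j₁ i))
      rw [hg j₁ i]
      exact Finset.dvd_prod_of_mem (fun l => g j₁ i l) (Finset.mem_univ none)
    · rw [Finset.prod_comm]
      apply Finset.prod_dvd_prod_of_dvd
      intro i _
      refine dvd_trans (Finset.prod_dvd_prod_of_subset _ _ _ (Finset.subset_univ Aᶜ)) ?_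
      rw [← hγ2 i]
      refine dvd_trans ?_ (v1 (Vd y) _ (hU1 j₂ i))
      rw [hg j₂ i]
      exact Finset.dvd_prod_of_mem (fun l => g j₂ i l) (Finset.mem_univ none)
  · -- v ≤ N^s
    have e1 : v ≤ vf (Vd y) c := by
      rw [← hKv]
      apply Nat.le_mul_of_pos_left
      apply Nat.pos_of_ne_zero
      intro h0
      rw [h0, zero_mul] at hKv
      have := v2 (Vd y) _ hc
      omega
    have e2 : c ≤ ∏ i, ds (y j) (x i) := by
      rw [hds j]
      exact Nat.le_mul_of_pos_right _ (prod_pos' _ _ (fun l _ => hQ j l))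
    have e3 := Finset.prod_le_pow_card (Finset.univ : Finset (Fin s)) (fun i => ds (y j) (x i)) N
        (fun i _ => hUN j i)
    simp only [Finset.card_univ, Fintype.card_fin] at e3
    exact le_trans (le_trans e1 (hvfle _ hc)) (le_trans e2 e3)
  · -- φ ∣ K v ∏ F
    rw [hKv]
    apply mul_dvd_mul
    · rw [hg0 j]
      exact Finset.prod_dvd_prod_of_subset _ _ _ (Finset.subset_univ Aᶜ)
    · have e1 : ∏ l : Fin LA.card, ((π (LA.equivFin.symm l)).eval (y j : ℤ)).natAbs =
          ∏ l ∈ LA, ((π l).eval (y j : ℤ)).natAbs := by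
        rw [← Finset.prod_coe_sort LA]
        exact Fintype.prod_equiv LA.equivFin.symm _ _ (fun l => rfl)
      rw [e1]
      apply Finset.prod_dvd_prod_of_dvd
      intro l _
      refine dvd_trans ?_ (v1 (Vd y) _ (hQ j l))
      rw [hgl j l]
      exact Finset.prod_dvd_prod_of_subset _ _ _ (Finset.subset_univ Aᶜ)
  · -- φ ∣ ∏ ds
    have e1 : φ j = ∏ i ∈ Aᶜ, (g j i none * ∏ l ∈ LA, g j i (some l)) := by
      simp only [φ]
      rw [Finset.prod_mul_distrib, Finset.prod_comm]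
    rw [e1]
    apply Finset.prod_dvd_prod_of_dvd
    intro i _
    refine dvd_trans ?_ (v1 (Vd y) _ (hU1 j i))
    rw [hg j i, Fintype.prod_option]
    exact mul_dvd_mul_left _ (Finset.prod_dvd_prod_of_subset _ _ _ (Finset.subset_univ LA))
  · -- size
    have e1 : (0 : ℝ) < φ j := by have := hφ1 j; positivity
    have e2 : (0 : ℝ) < v := by positivity
    have e3 : (0 : ℝ) < N := by positivity
    rw [← Real.log_le_log_iff (by positivity) e1, Real.log_mul e2.ne' (by positivity),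
      Real.log_rpow e3]
    exact hj

theorem str (hFAC : FACStm) (hVF : VFStm) (hREF : REFStm) (hAVG : AVGStm) : STRStm := by
  intro d s hd hs
  refine ⟨max 2 ((2 * d).factorial * 4 ^ (32 * d) + 1), ?_⟩
  intro N hN y hy x hx hvf
  exact str_aux hFAC hVF hREF hAVG d (32 * d) s rfl hd hs N (le_trans (le_max_left _ _) hN)
    (le_trans (le_max_right _ _) hN) y hy x hx hvf

end Pool.Agent.W89.VP
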