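import Pool.Agent.W89.VP.Defs

set_option autoImplicit false

namespace Pool.Agent.W89.VP

open Finset

/-- the averaging step -/
lemma exists_A (hAVG : AVGStm) (d s w : ℕ) (hs : 40 * d ≤ s) (m0 : Fin s → ℝ)
    (m : Fin w → Fin s → ℝ) (h : Fin w → ℝ) (δ : Fin w → ℕ) (γ : Fin s → Fin s → ℝ)
    (hm : ∀ l i, 0 ≤ m l i ∧ m l i ≤ 1) (hδ : ∀ l, 1 ≤ δ l) (hδs : ∑ l, δ l + 1 ≤ d)
    (hh : ∀ l, ∑ i, m l i ≤ h l) (hγ0 : ∀ i, γ i i = 0) (hγ : ∑ i, ∑ i', γ i i' = ∑ i, m0 i)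
    (hsum1 : (7 / 8 : ℝ) * s ≤ ∑ i, m0 i + ∑ l, ∑ i, m l i)
    (hsum2 : ∑ i, m0 i + ∑ l, h l ≤ s) :
    ∃ A : Finset (Fin s), (s : ℝ) / 8 ≤ ∑ i ∈ Aᶜ, m0 i +
      ∑ l, (if (h l / 2 ≤ ∑ i, m l i ∧ (δ l : ℝ) + 1 ≤ h l ∧ 8 ≤ ∑ i, m l i) ∧
        (∑ i, m l i) / 4 ≤ ∑ i ∈ A, m l i then ∑ i ∈ Aᶜ, m l i else 0)
      - ∑ i ∈ Aᶜ, ∑ i' ∈ Aᶜ, γ i i' := by
  classical
  obtain ⟨h1, h2, h3⟩ := hAVG
  -- suffices average
  by_contra hcon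
  push Not at hcon
  have hlt : ∑ A : Finset (Fin s), (∑ i ∈ Aᶜ, m0 i +
      ∑ l, (if (h l / 2 ≤ ∑ i, m l i ∧ (δ l : ℝ) + 1 ≤ h l ∧ 8 ≤ ∑ i, m l i) ∧
        (∑ i, m l i) / 4 ≤ ∑ i ∈ A, m l i then ∑ i ∈ Aᶜ, m l i else 0)
      - ∑ i ∈ Aᶜ, ∑ i' ∈ Aᶜ, γ i i') < ∑ A : Finset (Fin s), (s : ℝ) / 8 := by
    apply Finset.sum_lt_sum_of_nonempty (Finset.univ_nonempty)
    intro A _
    exact hcon A
  rw [Finset.sum_sub_distrib, Finset.sum_add_distrib, h2, h3 s γ hγ0, hγ, Finset.sum_comm] at hlt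
  simp only [Finset.sum_const, Finset.card_univ, Fintype.card_finset, Fintype.card_fin,
    nsmul_eq_mul, Nat.cast_pow, Nat.cast_ofNat] at hlt
  have hpow : (0 : ℝ) < (2 : ℝ) ^ s := by positivity
  -- lower bound for the good l
  have hl : ∀ l, (2 : ℝ) ^ s / 4 * (∑ i, m l i - (h l - ∑ i, m l i) - (9 * δ l : ℝ)) ≤
      ∑ A : Finset (Fin s), (if (h l / 2 ≤ ∑ i, m l i ∧ (δ l : ℝ) + 1 ≤ h l ∧ 8 ≤ ∑ i, m l i) ∧
        (∑ i, m l i) / 4 ≤ ∑ i ∈ A, m l i then ∑ i ∈ Aᶜ, m l i else 0) := by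
    intro l
    have hδ1 : (1 : ℝ) ≤ δ l := by exact_mod_cast hδ l
    by_cases hg : h l / 2 ≤ ∑ i, m l i ∧ (δ l : ℝ) + 1 ≤ h l ∧ 8 ≤ ∑ i, m l i
    · have := h1 s (m l) (hm l) hg.2.2
      simp only [hg, and_self, true_and]
      refine le_trans ?_ this
      have h4 := hh l
      have : ∑ i, m l i - (h l - ∑ i, m l i) - (9 * δ l : ℝ) ≤ ∑ i, m l i := by linarith
      nlinarith
    · have h5 : ∑ i, m l i - (h l - ∑ i, m l i) - (9 * δ l : ℝ) ≤ 0 := by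
        have h4 := hh l
        by_contra h6
        push Not at h6
        apply hg
        refine ⟨?_, ?_, ?_⟩ <;> linarith
      simp only [hg, false_and, if_false, Finset.sum_const_zero]
      nlinarith
  have hl2 := Finset.sum_le_sum (fun l (_ : l ∈ (Finset.univ : Finset (Fin w))) => hl l)
  rw [← Finset.mul_sum, Finset.sum_sub_distrib, Finset.sum_sub_distrib, Finset.sum_sub_distrib,
    ← Finset.mul_sum] at hl2
  have hd : (∑ l, (δ l : ℝ)) + 1 ≤ d := by exact_mod_cast hδs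
  have hsd : (40 : ℝ) * d ≤ s := by exact_mod_cast hs
  have key : (s : ℝ) / 8 ≤ 1 / 4 * (∑ i, m0 i + ((∑ l, ∑ i, m l i) - (∑ l, h l - ∑ l, ∑ i, m l i) -
    9 * ∑ l, (δ l : ℝ))) := by
    have hs0 : (0 : ℝ) ≤ s := by positivity
    have hd0 : (0 : ℝ) ≤ d := by positivity
    linarith
  have key2 := mul_le_mul_of_nonneg_left key hpow.le
  linarith

end Pool.Agent.W89.VP
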