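import Pool.Agent.W89.VP.StrA

set_option autoImplicit false

namespace Pool.Agent.W89.VP

open Finset Polynomial

lemma ds_pos {u v : ℕ} (h : v ≠ u) : 1 ≤ ds u v := by
  unfold ds
  omega

lemma ds_le {u v N : ℕ} (hu : 1 ≤ u ∧ u ≤ N) (hv : 1 ≤ v ∧ v ≤ N) : ds u v ≤ N := by
  unfold ds
  omega

lemma Vd_pos {n : ℕ} {y : Fin n → ℕ} (hy : Function.Injective y) : 1 ≤ Vd y := by
  unfold Vd
  apply Nat.one_le_iff_ne_zero.2
  apply Finset.prod_ne_zero_iff.2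
  intro i _
  apply Finset.prod_ne_zero_iff.2
  intro j hj
  have hij : i < j := (Finset.mem_filter.1 hj).2
  have : y j ≠ y i := fun h => (ne_of_gt hij) (hy h)
  have := ds_pos this
  omega

lemma ds_dvd_Vd {n : ℕ} (y : Fin n → ℕ) {i j : Fin n} (hij : i < j) : ds (y i) (y j) ∣ Vd y := by
  unfold Vd
  refine dvd_trans ?_ (Finset.dvd_prod_of_mem _ (Finset.mem_univ i))
  exact Finset.dvd_prod_of_mem (fun j => ds (y i) (y j)) (by simp [hij])

lemma natAbs_prod' {ι : Type*} (s : Finset ι) (f : ι → ℤ) :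
    (∏ i ∈ s, f i).natAbs = ∏ i ∈ s, (f i).natAbs := by
  classical
  induction s using Finset.induction_on with
  | empty => simp
  | insert a s ha ih => rw [Finset.prod_insert ha, Finset.prod_insert ha, Int.natAbs_mul, ih]

/-- arithmetic core: divisibility data -/
lemma data_B (hFAC : FACStm) (hVF : VFStm) (hREF : REFStm) (d n s N : ℕ) (hn : 2 ≤ n)
    (y : Fin n → ℕ) (hy : Good n N y) (x : Fin s → ℕ) (hx : x ∈ ZS d n s N y) :
    ∃ (c : ℕ) (w : ℕ) (π : Fin w → ℤ[X]) (g : Fin n → Fin s → Option (Fin w) → ℕ)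
      (γ : Fin s → Fin s → ℕ) (j₁ j₂ : Fin n),
      1 ≤ c ∧ (∀ l, Irreducible (π l) ∧ 1 ≤ (π l).natDegree) ∧ (∑ l, (π l).natDegree) + 1 ≤ d ∧
      (∀ j l, 1 ≤ ((π l).eval (y j : ℤ)).natAbs) ∧
      (∀ j, ∏ i, ds (y j) (x i) = c * ∏ l, ((π l).eval (y j : ℤ)).natAbs) ∧
      (∀ j i, vf (Vd y) (ds (y j) (x i)) = ∏ l, g j i l) ∧
      (∀ j, vf (Vd y) c = ∏ i, g j i none) ∧
      (∀ j l, vf (Vd y) ((π l).eval (y j : ℤ)).natAbs = ∏ i, g j i (some l)) ∧
      (∀ i, g j₁ i none = ∏ i', γ i i') ∧ (∀ i', g j₂ i' none = ∏ i, γ i i') ∧ (∀ i, γ i i = 1) := by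
  classical
  obtain ⟨v1, v2, v3, v4, v5, v6⟩ := hVF
  obtain ⟨hxm, hxy, R, hRd, hRe⟩ : x ∈ (Fintype.piFinset fun _ : Fin s => Finset.Icc 1 N) ∧
      (∀ i j, x i ≠ y j) ∧ ∃ R : ℤ[X], R.degree < (d : WithBot ℕ) ∧
      ∀ j, R.eval (y j : ℤ) = ∏ i : Fin s, ((y j : ℤ) - (x i : ℤ)) := by
    have hx' := hx
    unfold ZS at hx'
    rw [Finset.mem_filter] at hx'
    exact hx'
  set j₁ : Fin n := ⟨0, by omega⟩ with hj1
  set j₂ : Fin n := ⟨1, by omega⟩ with hj2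
  have hV : 1 ≤ Vd y := Vd_pos hy.1
  have hprod_ne : ∀ j, ∏ i : Fin s, ((y j : ℤ) - (x i : ℤ)) ≠ 0 := by
    intro j
    apply Finset.prod_ne_zero_iff.2
    intro i _ h
    apply hxy i j
    have : (y j : ℤ) = x i := by linarith
    exact_mod_cast this.symm
  have hR0 : R ≠ 0 := by
    intro h
    apply hprod_ne j₁
    rw [← hRe j₁, h]; simp
  obtain ⟨c, w, π, hc, hπ, hRf, hdeg⟩ := hFAC R hR0
  have hcpos : 1 ≤ c.natAbs := by omega
  have hds : ∀ j, ∏ i, ds (y j) (x i) = c.natAbs * ∏ l, ((π l).eval (y j : ℤ)).natAbs := by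
    intro j
    have h1 : (∏ i : Fin s, ((y j : ℤ) - (x i : ℤ))).natAbs = ∏ i, ds (y j) (x i) := by
      rw [natAbs_prod']; rfl
    rw [← h1, ← hRe j, hRf, eval_mul, eval_C, eval_prod, Int.natAbs_mul, natAbs_prod']
  have hdspos : ∀ j i, 1 ≤ ds (y j) (x i) := fun j i => ds_pos (hxy i j)
  have hπpos : ∀ j l, 1 ≤ ((π l).eval (y j : ℤ)).natAbs := by
    intro j l
    have h2 : ∏ l, ((π l).eval (y j : ℤ)).natAbs ≠ 0 := by
      intro h0
      have h3 := hds j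
      rw [h0, mul_zero] at h3
      have : ∏ i, ds (y j) (x i) ≠ 0 := Finset.prod_ne_zero_iff.2 (fun i _ => by have := hdspos j i; omega)
      exact this h3
    have := Finset.prod_ne_zero_iff.1 h2 l (Finset.mem_univ _)
    omega
  have hdd : (∑ l, (π l).natDegree) + 1 ≤ d := by
    rw [hdeg]
    have := (Polynomial.natDegree_lt_iff_degree_lt hR0).2 hRd
    omega
  -- refinement
  have hvfpos : ∀ u, 1 ≤ u → 1 ≤ vf (Vd y) u := fun u hu => v2 _ _ hu
  let W : Fin n → Option (Fin w) → ℕ := fun j o => match o with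
    | none => vf (Vd y) c.natAbs
    | some l => vf (Vd y) ((π l).eval (y j : ℤ)).natAbs
  have hW : ∀ j o, 0 < W j o := by
    intro j o
    cases o with
    | none => exact hvfpos _ hcpos
    | some l => exact hvfpos _ (hπpos j l)
  have hWp : ∀ j, ∏ i, vf (Vd y) (ds (y j) (x i)) = ∏ o, W j o := by
    intro j
    rw [Fintype.prod_option]
    have h3 : ∏ l, W j (some l) = vf (Vd y) (∏ l, ((π l).eval (y j : ℤ)).natAbs) := by
      rw [v6 (Vd y) (Fin w) _ (fun l => hπpos j l)]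
    rw [h3, ← v6 (Vd y) (Fin s) _ (hdspos j), hds j, v4 _ _ _ hcpos]
    exact Nat.one_le_iff_ne_zero.2 (Finset.prod_ne_zero_iff.2 (fun l _ => by have := hπpos j l; omega))
  choose g hg1 hg2 using fun j => hREF (Fin s) (Option (Fin w)) (fun i => vf (Vd y) (ds (y j) (x i)))
    (W j) (fun i => hvfpos _ (hdspos j i)) (hW j) (hWp j)
  have hgpos : ∀ j i o, 0 < g j i o := by
    intro j i o
    have h1 := hg1 j i
    have h2 : ∏ l, g j i l ≠ 0 := by
      rw [← h1]; have := hvfpos _ (hdspos j i); omega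
    exact Nat.pos_of_ne_zero (Finset.prod_ne_zero_iff.1 h2 o (Finset.mem_univ _))
  obtain ⟨γ, hγ1, hγ2⟩ := hREF (Fin s) (Fin s) (fun i => g j₁ i none) (fun i => g j₂ i none)
    (fun i => hgpos _ _ _) (fun i => hgpos _ _ _) (by
      rw [← hg2 j₁ none, ← hg2 j₂ none])
  refine ⟨c.natAbs, w, π, g, γ, j₁, j₂, hcpos, hπ, hdd, hπpos, hds, hg1, fun j => hg2 j none,
    fun j l => hg2 j (some l), hγ1, hγ2, ?_⟩
  intro i
  -- γ i i divides both
  have d1 : γ i i ∣ vf (Vd y) (ds (y j₁) (x i)) := by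
    refine dvd_trans ?_ (hg1 j₁ i ▸ Finset.dvd_prod_of_mem _ (Finset.mem_univ none))
    rw [hγ1 i]
    exact Finset.dvd_prod_of_mem _ (Finset.mem_univ i)
  have d2 : γ i i ∣ vf (Vd y) (ds (y j₂) (x i)) := by
    refine dvd_trans ?_ (hg1 j₂ i ▸ Finset.dvd_prod_of_mem _ (Finset.mem_univ none))
    rw [hγ2 i]
    exact Finset.dvd_prod_of_mem (fun i' => γ i' i) (Finset.mem_univ i)
  have e1 : (γ i i : ℤ) ∣ (y j₁ : ℤ) - x i := by
    have := dvd_trans d1 (v1 _ _ (hdspos j₁ i))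
    exact Int.natCast_dvd.2 this
  have e2 : (γ i i : ℤ) ∣ (y j₂ : ℤ) - x i := by
    have := dvd_trans d2 (v1 _ _ (hdspos j₂ i))
    exact Int.natCast_dvd.2 this
  have e3 : (γ i i : ℤ) ∣ (y j₁ : ℤ) - y j₂ := by
    have := dvd_sub e1 e2
    have h4 : (y j₁ : ℤ) - x i - (y j₂ - x i) = (y j₁ : ℤ) - y j₂ := by ring
    rwa [h4] at this
  have e4 : γ i i ∣ ds (y j₁) (y j₂) := Int.natCast_dvd.1 e3
  have e5 : γ i i ∣ Vd y := dvd_trans e4 (ds_dvd_Vd y (by simp [hj1, hj2, Fin.lt_def]))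
  have e6 : Nat.Coprime (γ i i) (Vd y) := Nat.Coprime.coprime_dvd_left d1 (v3 _ _ hV (hdspos j₁ i))
  exact Nat.Coprime.eq_one_of_dvd e6 e5

end Pool.Agent.W89.VP
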